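import Mathlib

/-!
# Families of subspaces and their Čech cohomology (general part)
-/

namespace Pool.Agent.Helper13

open Finset

section Basic

variable (k : Type*) [Field k] {V : Type*} [LinearOrder V]

/-- The Čech (simplicial) coboundary: `(D c)(T) = ∑_{v ∈ T} (-1)^{#{w ∈ T, w < v}} c(T \ {v})`. -/
noncomputable def cobd (E : Type*) [AddCommGroup E] [Module k E] :
    (Finset V → E) →ₗ[k] (Finset V → E) :=
  LinearMap.pi fun T => ∑ v ∈ T, ((-1 : k) ^ (T.filter (· < v)).card) • LinearMap.proj (T.erase v)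

variable {k} {E : Type*} [AddCommGroup E] [Module k E]

theorem cobd_apply (c : Finset V → E) (T : Finset V) :
    cobd k E c T = ∑ v ∈ T, ((-1 : k) ^ (T.filter (· < v)).card) • c (T.erase v) := by
  simp [cobd]

/-- scalar cochains of degree `q` supported on `F` -/
def CF (k : Type*) [Field k] (F : Finset V → Prop) (q : ℤ) : Submodule k (Finset V → k) where
  carrier := {u | ∀ T, u T ≠ 0 → F T ∧ (T.card : ℤ) = q}
  add_mem' := by
    intro a b ha hb T hT
    by_cases h : a T = 0
    · exact hb T (by intro h'; apply hT; simp [h, h'])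
    · exact ha T h
  zero_mem' := by intro T hT; simp at hT
  smul_mem' := by
    intro c a ha T hT
    exact ha T (by intro h'; apply hT; simp [h'])

noncomputable def ZF (k : Type*) [Field k] (F : Finset V → Prop) (q : ℤ) : Submodule k (Finset V → k) :=
  CF k F q ⊓ LinearMap.ker (cobd k k)

noncomputable def BF (k : Type*) [Field k] (F : Finset V → Prop) (q : ℤ) :
    Submodule k (Finset V → k) :=
  (CF k F (q - 1)).map (cobd k k)

/-- acyclic, or a homology sphere in degree `d` -/
inductive Kind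
  | acyc : Kind
  | sph (d : ℕ) : Kind
  deriving DecidableEq

def Kind.add : Kind → Kind → Kind
  | .acyc, _ => .acyc
  | .sph _, .acyc => .acyc
  | .sph a, .sph b => .sph (a + b)

/-- `F` (an up-set) is acyclic, or has one-dimensional cohomology exactly in degree `d`. -/
noncomputable def Status (k : Type*) [Field k] (F : Finset V → Prop) : Kind → Prop
  | .acyc => ∀ q, ZF k F q ≤ BF k F q
  | .sph d => (∀ q : ℤ, q ≠ d → ZF k F q ≤ BF k F q) ∧
      ∃ ε : (Finset V → k) →ₗ[k] k, (∃ z ∈ ZF k F d, ε z = 1) ∧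
        (∀ u ∈ BF k F d, ε u = 0) ∧ ∀ u ∈ ZF k F d, ε u = 0 → u ∈ BF k F d

end Basic

/-! ### families of subspaces -/

section Families

variable {k : Type*} [Field k] {V : Type*} [LinearOrder V] {E : Type*} [AddCommGroup E] [Module k E]

/-- cochains of degree `q` with values in the family `G` -/
def Coch (G : Finset V → Submodule k E) (q : ℤ) : Submodule k (Finset V → E) where
  carrier := {c | ∀ T, c T ∈ G T ∧ ((T.card : ℤ) ≠ q → c T = 0)}
  add_mem' := by
    intro a b ha hb T
    exact ⟨(G T).add_mem (ha T).1 (hb T).1, fun h => by simp [(ha T).2 h, (hb T).2 h]⟩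
  zero_mem' := by intro T; simp
  smul_mem' := by
    intro c a ha T
    exact ⟨(G T).smul_mem c (ha T).1, fun h => by simp [(ha T).2 h]⟩

/-- relative cocycles of the pair `(G, J)` -/
noncomputable def Zc (G J : Finset V → Submodule k E) (q : ℤ) : Submodule k (Finset V → E) :=
  Coch G q ⊓ (Coch J (q + 1)).comap (cobd k E)

/-- relative coboundaries of the pair `(G, J)` -/
noncomputable def Bc (G J : Finset V → Submodule k E) (q : ℤ) : Submodule k (Finset V → E) :=
  (Coch G (q - 1)).map (cobd k E) ⊔ Coch J q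

/-- `H^q(G/J) = 0` -/
def Van (G J : Finset V → Submodule k E) (q : ℤ) : Prop := Zc G J q ≤ Bc G J q

/-- `H^q(G/J)` is finite dimensional -/
def FinC (G J : Finset V → Submodule k E) (q : ℤ) : Prop :=
  ∃ W : Submodule k (Finset V → E), W.FG ∧ Zc G J q ≤ Bc G J q ⊔ W

end Families

section Loc

variable {k : Type*} [Field k] {V : Type*} {A : Type*} [CommRing A] [Algebra k A]

/-- localization of the lattice `G ⊆ A` at `X_T = ∏_{v ∈ T} X_v` -/
def loc (X : V → A) (G : Submodule k A) (T : Finset V) : Submodule k A where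
  carrier := {p | ∃ N : ℕ, ∀ n ≥ N, (∏ v ∈ T, X v) ^ n * p ∈ G}
  add_mem' := by
    rintro a b ⟨N, hN⟩ ⟨N', hN'⟩
    refine ⟨max N N', fun n hn => ?_⟩
    rw [mul_add]
    exact G.add_mem (hN n (le_trans (le_max_left _ _) hn)) (hN' n (le_trans (le_max_right _ _) hn))
  zero_mem' := ⟨0, fun n _ => by simp⟩
  smul_mem' := by
    rintro c a ⟨N, hN⟩
    refine ⟨N, fun n hn => ?_⟩
    rw [mul_smul_comm]
    exact G.smul_mem c (hN n hn)

end Loc

section Laurent

variable (k : Type*) [Field k] (d : ℕ)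

/-- Laurent ring in `d` variables -/
abbrev Laur := AddMonoidAlgebra k (Fin d → ℤ)

/-- Laurent variable -/
noncomputable def lx (v : Fin d) : Laur k d := AddMonoidAlgebra.single (Pi.single v 1) 1

/-- the embedding of the polynomial ring -/
noncomputable def toLaur : MvPolynomial (Fin d) k →ₐ[k] Laur k d :=
  MvPolynomial.aeval (lx k d)

/-- the lattice of an ideal -/
noncomputable def lat (J : Ideal (MvPolynomial (Fin d) k)) : Submodule k (Laur k d) :=
  (J.restrictScalars k).map (toLaur k d).toLinearMap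

/-- the family `T ↦ J_{x_T}` -/
noncomputable def fam (J : Ideal (MvPolynomial (Fin d) k)) : Finset (Fin d) → Submodule k (Laur k d) :=
  loc (lx k d) (lat k d J)

end Laurent

/-! ### the concrete up-sets -/

def xv (a : Fin 6) : Fin 18 := ⟨a.1, by omega⟩
def yv (b : Fin 2) (i : Fin 3) : Fin 18 := ⟨6 + 3 * b.1 + i.1, by omega⟩
def zv (b : Fin 2) (i : Fin 3) : Fin 18 := ⟨12 + 3 * b.1 + i.1, by omega⟩

/-- up-set of `T ⊆ Fin 18` meeting all the active clauses -/
def Fxyz (neg : Fin 6 → Prop) (low : Prop) (ry : Fin 2 → Prop) (cy : Fin 3 → Prop)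
    (rz : Fin 2 → Prop) (cz : Fin 3 → Prop) (T : Finset (Fin 18)) : Prop :=
  ((∀ a, neg a → xv a ∈ T) ∧ (low → ∃ a, xv a ∈ T)) ∧
  ((∀ b, ry b → ∃ i, yv b i ∈ T) ∧ ∀ i, cy i → ∃ b, yv b i ∈ T) ∧
  ((∀ b, rz b → ∃ i, zv b i ∈ T) ∧ ∀ i, cz i → ∃ b, zv b i ∈ T)

open Classical in
noncomputable def kindX (neg : Fin 6 → Prop) (low : Prop) : Kind :=
  if ∀ a, neg a then .sph 6 else if (∀ a, ¬ neg a) ∧ low then .sph 1 else .acyc

open Classical in
noncomputable def kindY (r : Fin 2 → Prop) (c : Fin 3 → Prop) : Kind :=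
  if (∀ b, r b) ∧ (∀ i, ¬ c i) then .sph 2
  else if (∀ b, r b) ∧ (∀ i, c i) then .sph 4
  else if (∀ b, ¬ r b) ∧ (∀ i, c i) then .sph 3
  else .acyc


end Pool.Agent.Helper13
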