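import Mathlib
import Pool.Agent.Helper13.Cech

/-!
# The example: polynomials, ideals and lattices (definitions only)

Variables (`Fin 18`): `x_a = X a` for `a = 0..5`; `y_{b,i} = X (6 + 3 b + i)`, `z_{b,i} = X (12 + 3 b + i)` for
`b = 0,1`, `i = 0,1,2`.
-/

namespace Pool.Agent.Helper13

open MvPolynomial

/-- exponents of monomials in 18 variables -/
abbrev Ex := Fin 18 →₀ ℕ

/-- the monomial condition defining `𝔟_m` (`𝔟_0 = R`) -/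
def InB (m : ℕ) (M : Ex) : Prop :=
  3 * m ≤ M 0 + M 1 + M 2 + M 3 + M 4 + M 5 ∧
  6 * m ≤ M 6 + M 7 + M 8 ∧ m ≤ M 6 + M 9 ∧ 2 * m ≤ M 7 + M 10 ∧
  6 * m ≤ M 12 + M 13 + M 14 ∧ m ≤ M 12 + M 15 ∧ 2 * m ≤ M 13 + M 16

/-- the form of type (2,2,2) -/
def ff {A : Type*} [CommRing A] (x0 x1 Y0 Y1 Z0 Z1 : A) : A :=
  (x0 * Y0 * Z0) * (x1 * Y0 * Z0 + x0 * Y1 * Z0 + x0 * Y0 * Z1) +
    (x1 * Y1 * Z0 + x1 * Y0 * Z1 + x0 * Y1 * Z1) ^ 2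

variable (k : Type*) [Field k]

/-- the five generators `g_1, …, g_5` -/
noncomputable def gg : Fin 5 → MvPolynomial (Fin 18) k
  | 0 => X 9 * X 7 - X 6 * X 10
  | 1 => X 6 * X 11 - X 9 * X 8
  | 2 => X 15 * X 13 - X 12 * X 16
  | 3 => X 12 * X 17 - X 15 * X 14
  | 4 => ff (X 0) (X 1) (X 7) (X 10) (X 13) (X 16)

/-- `𝔟_m` -/
noncomputable def bb (m : ℕ) : Ideal (MvPolynomial (Fin 18) k) :=
  Ideal.span {p | ∃ M : Ex, InB m M ∧ p = monomial M 1}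

/-- `(g_1, …, g_5)` -/
noncomputable def GG : Ideal (MvPolynomial (Fin 18) k) := Ideal.span (Set.range (gg k))

/-- the ideal of the counterexample -/
noncomputable def II : Ideal (MvPolynomial (Fin 18) k) := GG k ⊔ bb k 1

/-- `g^β` -/
noncomputable def gpow (β : Fin 5 → ℕ) : MvPolynomial (Fin 18) k := ∏ i, gg k i ^ β i

/-- the ideals of the chain between `I^n` and `R` -/
noncomputable def JJ (n : ℕ) (S : Finset (Fin 5 → ℕ)) : Ideal (MvPolynomial (Fin 18) k) :=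
  II k ^ n ⊔ Ideal.span {p | ∃ β : Fin 5 → ℕ, β ∉ S ∧ p = gpow k β}

/-! ### Laurent rings and the map `φ` -/

/-- exponents of Laurent monomials in `x_0..x_5, Y_0, Y_1, s_0, s_1, s_2, Z_0, Z_1, t_0, t_1, t_2` -/
abbrev ExL := Fin 16 → ℤ

/-- `y_{b,i} ↦ Y_b s_i`, `z_{b,i} ↦ Z_b t_i` on exponents -/
def expMap : (Fin 18 → ℤ) →+ ExL where
  toFun M := ![M 0, M 1, M 2, M 3, M 4, M 5,
    M 6 + M 7 + M 8, M 9 + M 10 + M 11, M 6 + M 9, M 7 + M 10, M 8 + M 11,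
    M 12 + M 13 + M 14, M 15 + M 16 + M 17, M 12 + M 15, M 13 + M 16, M 14 + M 17]
  map_zero' := by ext i; fin_cases i <;> rfl
  map_add' M N := by ext i; fin_cases i <;> simp <;> ring

/-- Laurent ring in 16 variables -/
abbrev E16 := AddMonoidAlgebra k ExL

/-- `φ` -/
noncomputable def phi : Laur k 18 →ₐ[k] E16 k := AddMonoidAlgebra.mapDomainAlgHom k k expMap

/-- Laurent variable of `E16` -/
noncomputable def t16 (i : Fin 16) : E16 k := AddMonoidAlgebra.single (Pi.single i 1) 1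

/-- `f` in `E16` -/
noncomputable def fL : E16 k := ff (t16 k 0) (t16 k 1) (t16 k 6) (t16 k 7) (t16 k 11) (t16 k 12)

/-- exponents of the lattice `L_m` (`δ = 0`) and `L'_m` (`δ = 2`) -/
def InL (m : ℕ) (δ : ℤ) (μ : ExL) : Prop :=
  (0 ≤ μ 0 ∧ 0 ≤ μ 1 ∧ 0 ≤ μ 2 ∧ 0 ≤ μ 3 ∧ 0 ≤ μ 4 ∧ 0 ≤ μ 5) ∧
  3 * m ≤ μ 0 + μ 1 + μ 2 + μ 3 + μ 4 + μ 5 + δ ∧
  (6 * m ≤ μ 6 ∧ 0 ≤ μ 7 ∧ μ 6 + μ 7 + δ = μ 8 + μ 9 + μ 10 ∧ m ≤ μ 8 ∧ 2 * m ≤ μ 9 ∧ 0 ≤ μ 10) ∧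
  (6 * m ≤ μ 11 ∧ 0 ≤ μ 12 ∧ μ 11 + μ 12 + δ = μ 13 + μ 14 + μ 15 ∧ m ≤ μ 13 ∧ 2 * m ≤ μ 14 ∧
    0 ≤ μ 15)

/-- the lattice -/
def LL (m : ℕ) (δ : ℤ) : Submodule k (E16 k) where
  carrier := {p | ∀ μ, p.coeff μ ≠ 0 → InL m δ μ}
  add_mem' := by
    intro a b ha hb μ hμ
    by_cases h : a.coeff μ = 0
    · exact hb μ (by intro h'; apply hμ; simp [h, h'])
    · exact ha μ h
  zero_mem' := by intro μ hμ; simp at hμ
  smul_mem' := by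
    intro c a ha μ hμ
    exact ha μ (by intro h'; apply hμ; simp [h'])

end Pool.Agent.Helper13
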