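import Pool.Agent.Helper13.Graded
import Pool.Agent.Helper13.Setup

/-!
# Block degrees, localized lattices (definitions)
-/

namespace Pool.Agent.Helper13

open Finset AddMonoidAlgebra

/-- block degrees -/
abbrev Lam := Fin 7 → ℤ

/-- the block degree of a Laurent monomial of `E16` -/
def blkL : ExL →+ Lam where
  toFun μ := ![μ 0 + μ 1 + μ 2 + μ 3 + μ 4 + μ 5, μ 8, μ 9, μ 10, μ 13, μ 14, μ 15]
  map_zero' := by ext i; fin_cases i <;> rfl
  map_add' M N := by ext i; fin_cases i <;> simp <;> ring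

/-- monomials of `E16` of block degree `l` -/
def SL (l : Lam) : Set ExL := blkL ⁻¹' {l}

/-- monomials of `Laur k 18` of block degree `l` -/
def SM (l : Lam) : Set (Fin 18 → ℤ) := (fun M => blkL (expMap M)) ⁻¹' {l}

/-- images of the 18 Laurent variables in `E16` -/
noncomputable def X16 (k : Type*) [Field k] (v : Fin 18) : E16 k := single (expMap (Pi.single v 1)) 1

/-- the lattice `f · L'_m` -/
noncomputable def fLL (k : Type*) [Field k] (m : ℕ) : Submodule k (E16 k) :=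
  (LL k m 2).map (LinearMap.mulLeft k (fL k))

def Eqn (δ : ℤ) (μ : ExL) : Prop :=
  μ 6 + μ 7 + δ = μ 8 + μ 9 + μ 10 ∧ μ 11 + μ 12 + δ = μ 13 + μ 14 + μ 15

def negP (μ : ExL) : Fin 6 → Prop := fun a => μ ⟨a.1, by omega⟩ < 0
def lowP (m : ℕ) (δ : ℤ) (μ : ExL) : Prop := μ 0 + μ 1 + μ 2 + μ 3 + μ 4 + μ 5 + δ < 3 * m
def ryP (m : ℕ) (μ : ExL) : Fin 2 → Prop
  | 0 => μ 6 < 6 * m
  | 1 => μ 7 < 0
def cyP (m : ℕ) (μ : ExL) : Fin 3 → Prop
  | 0 => μ 8 < m
  | 1 => μ 9 < 2 * m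
  | 2 => μ 10 < 0
def rzP (m : ℕ) (μ : ExL) : Fin 2 → Prop
  | 0 => μ 11 < 6 * m
  | 1 => μ 12 < 0
def czP (m : ℕ) (μ : ExL) : Fin 3 → Prop
  | 0 => μ 13 < m
  | 1 => μ 14 < 2 * m
  | 2 => μ 15 < 0

/-- the up-set of the localizations of `LL m δ` containing `μ` -/
def FL (m : ℕ) (δ : ℤ) (μ : ExL) (T : Finset (Fin 18)) : Prop :=
  Eqn δ μ ∧ Fxyz (negP μ) (lowP m δ μ) (ryP m μ) (cyP m μ) (rzP m μ) (czP m μ) T

/-- the localized lattices -/
noncomputable def LF (k : Type*) [Field k] (m : ℕ) (δ : ℤ) := loc (X16 k) (LL k m δ)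
noncomputable def JF (k : Type*) [Field k] (m : ℕ) := loc (X16 k) (fLL k m)

end Pool.Agent.Helper13
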