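import Pool.Agent.Helper13.BridgeRep

/-!
# From families in the Laurent ring to the Čech complex of `R ⧸ J`
-/

namespace Pool.Agent.Helper13.Br

open MvPolynomial

variable {k : Type*} [Field k] {d : ℕ} {J : Ideal (MvPolynomial (Fin d) k)}

/-- the Čech cochain `z` is the image of the cochain `c` of Laurent polynomials -/
def RepC (J : Ideal (MvPolynomial (Fin d) k)) (q : ℕ) (c : Finset (Fin d) → Laur k d)
    (z : CechC k d (MvPolynomial (Fin d) k ⧸ J) q) : Prop :=
  ∀ T : {T : Finset (Fin d) // T.card = q}, IsRep J T.1 (c T.1) (z T)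

theorem RepC.cobd {q : ℕ} {c : Finset (Fin d) → Laur k d}
    {z : CechC k d (MvPolynomial (Fin d) k ⧸ J) q} (h : RepC J q c z) :
    RepC J (q + 1) (cobd k _ c) (cechD k d _ q z) := by
  intro T
  rw [cobd_apply]
  have : cechD k d (MvPolynomial (Fin d) k ⧸ J) q z T =
      ∑ v : {v // v ∈ T.1}, ((-1 : MvPolynomial (Fin d) k) ^ (T.1.filter (· < v.1)).card) •
        cechFace k d _ q T v z := by
    simp [cechD, LinearMap.sum_apply]
  rw [this, ← Finset.sum_coe_sort T.1]
  refine IsRep.sum _ (fun v _ => ?_)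
  exact ((h ⟨T.1.erase v.1, by rw [Finset.card_erase_of_mem v.2, T.2]; rfl⟩).res
    (Finset.erase_subset v.1 T.1)).smulR _

theorem RepC.exists (q : ℕ) {c : Finset (Fin d) → Laur k d} {e : ℤ}
    (h : c ∈ Coch (fam k d ⊤) e) : ∃ z, RepC J q c z := by
  choose z hz using fun T : {T : Finset (Fin d) // T.card = q} =>
    IsRep.exists (J := J) (h T.1).1
  exact ⟨z, hz⟩

theorem RepC.surj {q : ℕ} (z : CechC k d (MvPolynomial (Fin d) k ⧸ J) q) :
    ∃ c ∈ Coch (fam k d ⊤) (q : ℤ), RepC J q c z := by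
  choose p hp using fun T : {T : Finset (Fin d) // T.card = q} => IsRep.surj (z T)
  refine ⟨fun T => if h : T.card = q then p ⟨T, h⟩ else 0, fun T => ?_, fun T => ?_⟩
  · dsimp only
    split_ifs with h
    · exact ⟨(hp ⟨T, h⟩).mem, fun h' => absurd (by exact_mod_cast h) h'⟩
    · exact ⟨Submodule.zero_mem _, fun _ => rfl⟩
  · dsimp only
    rw [dif_pos T.2]
    exact hp T

theorem RepC.unique {q : ℕ} {c : Finset (Fin d) → Laur k d}
    {z z' : CechC k d (MvPolynomial (Fin d) k ⧸ J) q} (h : RepC J q c z) (h' : RepC J q c z') :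
    z = z' := by
  funext T
  exact IsRep.unique (h T) (h' T)

theorem RepC.add {q : ℕ} {c c' : Finset (Fin d) → Laur k d}
    {z z' : CechC k d (MvPolynomial (Fin d) k ⧸ J) q} (h : RepC J q c z) (h' : RepC J q c' z') :
    RepC J q (c + c') (z + z') := fun T => (h T).add (h' T)

theorem RepC.sub {q : ℕ} {c c' : Finset (Fin d) → Laur k d}
    {z z' : CechC k d (MvPolynomial (Fin d) k ⧸ J) q} (h : RepC J q c z) (h' : RepC J q c' z') :
    RepC J q (c - c') (z - z') := fun T => (h T).sub (h' T)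

theorem RepC.smul {q : ℕ} (a : k) {c : Finset (Fin d) → Laur k d}
    {z : CechC k d (MvPolynomial (Fin d) k ⧸ J) q} (h : RepC J q c z) :
    RepC J q (a • c) (a • z) := fun T => (h T).smul a

theorem RepC.eq_zero_iff {q : ℕ} {c : Finset (Fin d) → Laur k d}
    {z : CechC k d (MvPolynomial (Fin d) k ⧸ J) q} (h : RepC J q c z) :
    z = 0 ↔ ∀ T : Finset (Fin d), T.card = q → c T ∈ fam k d J T := by
  constructor
  · rintro rfl T hT
    exact (h ⟨T, hT⟩).eq_zero_iff.1 rfl
  · intro hz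
    funext T
    exact (h T).eq_zero_iff.2 (hz T.1 T.2)

/-- a cochain of degree `q` with entries in a subfamily -/
theorem mem_coch_of {G : Finset (Fin d) → Submodule k (Laur k d)} {q : ℕ}
    {c : Finset (Fin d) → Laur k d} (h0 : ∀ T : Finset (Fin d), T.card ≠ q → c T = 0)
    (h : ∀ T : Finset (Fin d), T.card = q → c T ∈ G T) : c ∈ Coch G (q : ℤ) := by
  intro T
  by_cases hT : T.card = q
  · exact ⟨h T hT, fun h' => absurd (by exact_mod_cast hT) h'⟩
  · rw [h0 T hT]
    exact ⟨Submodule.zero_mem _, fun _ => rfl⟩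

theorem coch_zero {G : Finset (Fin d) → Submodule k (Laur k d)} {q : ℕ}
    {c : Finset (Fin d) → Laur k d} (h : c ∈ Coch G (q : ℤ)) {T : Finset (Fin d)}
    (hT : T.card ≠ q) : c T = 0 := (h T).2 (by exact_mod_cast hT)

theorem cobd_zero {q : ℕ} {c : Finset (Fin d) → Laur k d}
    (h0 : ∀ T : Finset (Fin d), T.card ≠ q → c T = 0) {T : Finset (Fin d)}
    (hT : T.card ≠ q + 1) : cobd k _ c T = 0 := by
  rw [cobd_apply]
  refine Finset.sum_eq_zero (fun v hv => ?_)
  rw [h0 (T.erase v), smul_zero]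
  rw [Finset.card_erase_of_mem hv]
  have := Finset.card_pos.2 ⟨v, hv⟩
  omega

theorem mem_cechZ_iff {q : ℕ} {c : Finset (Fin d) → Laur k d}
    {z : CechC k d (MvPolynomial (Fin d) k ⧸ J) q} (hc : c ∈ Coch (fam k d ⊤) (q : ℤ))
    (h : RepC J q c z) : z ∈ cechZ k d _ q ↔ c ∈ Zc (fam k d ⊤) (fam k d J) (q : ℤ) := by
  rw [LinearMap.mem_ker, h.cobd.eq_zero_iff]
  constructor
  · intro h'
    refine ⟨hc, ?_⟩
    exact mem_coch_of (q := q + 1) (fun T hT => cobd_zero (fun T hT => coch_zero hc hT) hT) h'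
  · rintro ⟨-, h'⟩ T hT
    exact (h' T).1

theorem coch_neg_one {G : Finset (Fin d) → Submodule k (Laur k d)}
    {c : Finset (Fin d) → Laur k d} (h : c ∈ Coch G ((0 : ℕ) - 1 : ℤ)) : c = 0 := by
  funext T
  exact (h T).2 (by have : (0 : ℤ) ≤ (T.card : ℤ) := Int.natCast_nonneg _; omega)

theorem mem_cechB_iff {q : ℕ} {c : Finset (Fin d) → Laur k d}
    {z : CechC k d (MvPolynomial (Fin d) k ⧸ J) q} (hc : c ∈ Coch (fam k d ⊤) (q : ℤ))
    (h : RepC J q c z) : z ∈ cechB k d _ q ↔ c ∈ Bc (fam k d ⊤) (fam k d J) (q : ℤ) := by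
  cases q with
  | zero =>
    change z ∈ (⊥ : Submodule _ _) ↔ _
    rw [Submodule.mem_bot, h.eq_zero_iff]
    constructor
    · intro h'
      exact Submodule.mem_sup_right (mem_coch_of (fun T hT => coch_zero hc hT) h')
    · intro h' T hT
      obtain ⟨x, ⟨b, hb, rfl⟩, j, hj, rfl⟩ := Submodule.mem_sup.1 h'
      rw [coch_neg_one hb, map_zero, zero_add]
      exact (hj T).1
  | succ q =>
    change z ∈ LinearMap.range (cechD k d _ q) ↔ _
    constructor
    · rintro ⟨b, rfl⟩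
      obtain ⟨b', hb', hbb⟩ := RepC.surj b
      have h1 := h.sub hbb.cobd
      rw [sub_self] at h1
      have h2 : c - cobd k _ b' ∈ Coch (fam k d J) ((q + 1 : ℕ) : ℤ) := by
        refine mem_coch_of (fun T hT => ?_) (h1.eq_zero_iff.1 rfl)
        rw [Pi.sub_apply, coch_zero hc hT, cobd_zero (fun T hT => coch_zero hb' hT) hT, sub_zero]
      have h3 : b' ∈ Coch (fam k d ⊤) (((q + 1 : ℕ) : ℤ) - 1) := by
        have : (((q + 1 : ℕ) : ℤ) - 1) = (q : ℤ) := by push_cast; ring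
        rw [this]; exact hb'
      have h4 : c = cobd k _ b' + (c - cobd k _ b') := by abel
      rw [h4]
      exact Submodule.add_mem_sup (Submodule.mem_map_of_mem h3) h2
    · intro h'
      obtain ⟨x, ⟨b, hb, rfl⟩, j, hj, rfl⟩ := Submodule.mem_sup.1 h'
      have hb' : b ∈ Coch (fam k d ⊤) (q : ℤ) := by
        have : (((q + 1 : ℕ) : ℤ) - 1) = (q : ℤ) := by push_cast; ring
        rw [this] at hb; exact hb
      obtain ⟨w, hw⟩ := RepC.exists (J := J) q hb'
      refine ⟨w, ?_⟩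
      have h1 := h.sub hw.cobd
      rw [add_sub_cancel_left] at h1
      have h2 := h1.eq_zero_iff.2 (fun T _ => (hj T).1)
      exact (sub_eq_zero.1 h2).symm

/-- the class in local cohomology of a cocycle of families -/
theorem exists_class_rep {q : ℕ} (c : Zc (fam k d ⊤) (fam k d J) (q : ℤ)) :
    ∃ z : cechZ k d (MvPolynomial (Fin d) k ⧸ J) q, RepC J q c.1 z.1 := by
  have hc : c.1 ∈ Coch (fam k d ⊤) (q : ℤ) := c.2.1
  obtain ⟨z, hz⟩ := RepC.exists (J := J) q hc
  exact ⟨⟨z, (mem_cechZ_iff hc hz).2 c.2⟩, hz⟩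

/-- the map from cocycles of families to local cohomology -/
noncomputable def clsMap (q : ℕ) : Zc (fam k d ⊤) (fam k d J) (q : ℤ) →ₗ[k]
    LocalCohomology k d (MvPolynomial (Fin d) k ⧸ J) q where
  toFun c := lcMk k d _ q (exists_class_rep c).choose
  map_add' a b := by
    rw [← map_add]
    congr 1
    apply Subtype.ext
    exact (exists_class_rep (a + b)).choose_spec.unique
      ((exists_class_rep a).choose_spec.add (exists_class_rep b).choose_spec)
  map_smul' x a := by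
    have h1 : (exists_class_rep (x • a)).choose = x • (exists_class_rep a).choose := by
      apply Subtype.ext
      exact (exists_class_rep (x • a)).choose_spec.unique ((exists_class_rep a).choose_spec.smul x)
    rw [h1]
    rfl

theorem clsMap_surjective (q : ℕ) : Function.Surjective (clsMap (k := k) (d := d) (J := J) q) := by
  intro ξ
  obtain ⟨z, rfl⟩ := Submodule.mkQ_surjective _ ξ
  obtain ⟨c, hc, hcz⟩ := RepC.surj z.1
  refine ⟨⟨c, (mem_cechZ_iff hc hcz).1 z.2⟩, ?_⟩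
  change lcMk k d _ q _ = lcMk k d _ q z
  congr 1
  apply Subtype.ext
  exact (exists_class_rep (J := J) ⟨c, (mem_cechZ_iff hc hcz).1 z.2⟩).choose_spec.unique hcz

theorem lcMk_eq_zero_iff {q : ℕ} (z : cechZ k d (MvPolynomial (Fin d) k ⧸ J) q) :
    lcMk k d _ q z = 0 ↔ z.1 ∈ cechB k d _ q := by
  unfold lcMk
  rw [Submodule.mkQ_apply, Submodule.Quotient.mk_eq_zero]
  exact Iff.rfl

theorem clsMap_eq_zero_iff {q : ℕ} (c : Zc (fam k d ⊤) (fam k d J) (q : ℤ)) :
    clsMap q c = 0 ↔ c.1 ∈ Bc (fam k d ⊤) (fam k d J) (q : ℤ) := by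
  change lcMk k d _ q _ = 0 ↔ _
  rw [lcMk_eq_zero_iff]
  exact mem_cechB_iff c.2.1 (exists_class_rep c).choose_spec

theorem bridge_fin (k : Type*) [Field k] (d : ℕ) (J : Ideal (MvPolynomial (Fin d) k)) (q : ℕ)
    (h : FinC (fam k d ⊤) (fam k d J) q) :
    IsFiniteLength (MvPolynomial (Fin d) k)
      (LocalCohomology k d (MvPolynomial (Fin d) k ⧸ J) q) := by
  obtain ⟨W, hW, hle⟩ := h
  -- the map to the quotient by the boundaries
  let f := (Bc (fam k d ⊤) (fam k d J) (q : ℤ)).mkQ.comp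
    (Zc (fam k d ⊤) (fam k d J) (q : ℤ)).subtype
  have hf : LinearMap.range f ≤ W.map (Bc (fam k d ⊤) (fam k d J) (q : ℤ)).mkQ := by
    rintro _ ⟨c, rfl⟩
    obtain ⟨b, hb, w, hw, hbw⟩ := Submodule.mem_sup.1 (hle c.2)
    refine ⟨w, hw, ?_⟩
    change Submodule.mkQ _ w = Submodule.mkQ _ c.1
    rw [← hbw, map_add, Submodule.mkQ_apply _ b, (Submodule.Quotient.mk_eq_zero _).2 hb, zero_add]
  have hfin1 : Module.Finite k (W.map (Bc (fam k d ⊤) (fam k d J) (q : ℤ)).mkQ) :=
    Module.Finite.iff_fg.2 (hW.map _)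
  have hfin2 : Module.Finite k (LinearMap.range f) :=
    Submodule.finiteDimensional_of_le hf
  have hker : LinearMap.ker f ≤ LinearMap.ker (clsMap (k := k) (d := d) (J := J) q) := by
    intro c hc
    rw [LinearMap.mem_ker] at hc ⊢
    rw [clsMap_eq_zero_iff]
    exact (Submodule.Quotient.mk_eq_zero _).1 hc
  have hfin3 : Module.Finite k (Zc (fam k d ⊤) (fam k d J) (q : ℤ) ⧸ LinearMap.ker f) :=
    Module.Finite.equiv f.quotKerEquivRange.symm
  have hfin4 : Module.Finite k (LocalCohomology k d (MvPolynomial (Fin d) k ⧸ J) q) := by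
    refine Module.Finite.of_surjective ((LinearMap.ker f).liftQ (clsMap q) hker) ?_
    intro ξ
    obtain ⟨c, rfl⟩ := clsMap_surjective q ξ
    exact ⟨Submodule.Quotient.mk c, rfl⟩
  rw [isFiniteLength_iff_isNoetherian_isArtinian]
  exact ⟨isNoetherian_of_tower k inferInstance, isArtinian_of_tower k inferInstance⟩

theorem IsRep.homogeneous {T : Finset (Fin d)} {p : Laur k d} {j : ℤ}
    {m : LocAt k d (MvPolynomial (Fin d) k ⧸ J) T} (h : IsRep J T p m)
    (hdeg : ∀ μ, p.coeff μ ≠ 0 → ∑ v, μ v = j) (hT : T.Nonempty ∨ 0 ≤ j) :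
    IsHomogeneousElt J T j m := by
  obtain ⟨N0, r0, h0, -⟩ := id h
  obtain ⟨N, hN0, hN⟩ : ∃ N, N0 ≤ N ∧ 0 ≤ j + N * T.card := by
    rcases hT with hT | hj
    · refine ⟨N0 + j.natAbs, by omega, ?_⟩
      have h1 : (1 : ℤ) ≤ (T.card : ℤ) := by exact_mod_cast hT.card_pos
      have h2 : (0 : ℤ) ≤ N0 := Int.natCast_nonneg _
      have h3 : -j ≤ |j| := neg_le_abs j
      have h4 : 0 ≤ |j| := abs_nonneg j
      push_cast
      nlinarith
    · exact ⟨N0, le_rfl, by positivity⟩
  obtain ⟨M, rfl⟩ := Nat.exists_eq_add_of_le hN0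
  have hr : (∏ v ∈ T, lx k d v) ^ (N0 + M) * p = toLaur k d (xprod k d T ^ M * r0) := by
    rw [map_mul, map_pow, toLaur_xprod, ← h0]
    ring
  refine ⟨N0 + M, (j + (N0 + M : ℕ) * T.card).toNat, xprod k d T ^ M * r0, ?_, ?_, h.eq_mk hr⟩
  · intro e he
    have h1 := toLaur_coeff_cast k d (xprod k d T ^ M * r0) e
    rw [← hr, lxprod_pow, AddMonoidAlgebra.coeff_single_mul_apply, one_mul] at h1
    have h2 := hdeg _ (by rw [h1]; exact he)
    have h3 : ∑ v, ((N0 + M) • ∑ w ∈ T, (Pi.single w 1 : Fin d → ℤ)) v = (N0 + M : ℕ) * T.card := by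
      simp only [Pi.smul_apply, Finset.sum_apply, nsmul_eq_mul]
      rw [← Finset.mul_sum, Finset.sum_comm]
      congr 1
      simp
    have h4 : (∑ v, castRep d e v : ℤ) = ((e.degree : ℕ) : ℤ) := by
      rw [Finsupp.degree_eq_sum]
      push_cast
      rfl
    have h5 : ∑ v, (-((N0 + M) • ∑ w ∈ T, (Pi.single w 1 : Fin d → ℤ)) + castRep d e) v =
        -(((N0 + M : ℕ) : ℤ) * T.card) + (e.degree : ℤ) := by
      simp only [Pi.add_apply, Pi.neg_apply]
      rw [Finset.sum_add_distrib, Finset.sum_neg_distrib, h3, h4]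
    rw [h5] at h2
    have h6 : Finsupp.weight 1 e = e.degree := by
      rw [Finsupp.degree_eq_weight_one]
      rfl
    rw [h6]
    omega
  · have := Int.toNat_of_nonneg hN
    omega

theorem bridge_ne (k : Type*) [Field k] (d : ℕ) (J : Ideal (MvPolynomial (Fin d) k)) (q : ℕ)
    (j : ℤ) (c : Finset (Fin d) → Laur k d) (hc : c ∈ Zc (fam k d ⊤) (fam k d J) q)
    (hc' : c ∉ Bc (fam k d ⊤) (fam k d J) q)
    (hdeg : ∀ T, ∀ μ, (c T).coeff μ ≠ 0 → ∑ v, μ v = j) :
    ∃ ξ : LocalCohomology k d (MvPolynomial (Fin d) k ⧸ J) q, InDegree J q j ξ ∧ ξ ≠ 0 := by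
  obtain ⟨z, hz⟩ := exists_class_rep (J := J) ⟨c, hc⟩
  refine ⟨lcMk k d _ q z, ⟨z, fun T => ?_, rfl⟩, fun h => hc' ?_⟩
  · refine (hz T).homogeneous (hdeg T.1) ?_
    by_contra hcon
    push Not at hcon
    obtain ⟨hT, hj⟩ := hcon
    have hT' : T.1 = ∅ := Finset.not_nonempty_iff_eq_empty.1 (by simpa using hT)
    have hq : q = 0 := by rw [← T.2, hT', Finset.card_empty]
    subst hq
    apply hc'
    have : c = 0 := by
      funext S
      by_cases hS : S.card = 0
      · rw [Finset.card_eq_zero] at hS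
        subst hS
        obtain ⟨N, r, -, hr⟩ := mem_fam_rep.1 (hc.1 ∅).1
        rw [Finset.prod_empty, one_pow, one_mul] at hr
        ext μ
        by_contra hμ
        obtain ⟨m, hm, -⟩ := exists_of_toLaur_coeff k d (r := r) (μ := μ) (by rw [← hr]; exact hμ)
        have h1 := hdeg ∅ μ hμ
        rw [← hm] at h1
        have h2 : 0 ≤ ∑ v, castRep d m v :=
          Finset.sum_nonneg (fun v _ => Int.natCast_nonneg (m v))
        omega
      · exact coch_zero hc.1 hS
    rw [this]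
    exact Submodule.zero_mem _
  · rw [lcMk_eq_zero_iff] at h
    exact (mem_cechB_iff hc.1 hz).1 h

end Pool.Agent.Helper13.Br
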