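import Mathlib

/-!
# Local cohomology at the homogeneous maximal ideal, by the Čech complex

For a module `M` over the polynomial ring `R = k[x_0, …, x_{d-1}]` the Čech complex on the variables is
`C^q(M) = ∏_{T ⊆ {0,…,d-1}, |T| = q} M_{x_T}` with `x_T = ∏_{v ∈ T} x_v` and
`(∂c)_T = ∑_{v ∈ T} (-1)^{#{w ∈ T, w < v}} c_{T \ {v}}|_{M_{x_T}}`; its cohomology is `H^q_𝔪(M)`.
-/

namespace Pool.Agent.Helper13

open MvPolynomial

section Def

variable (k : Type*) [Field k] (d : ℕ)

/-- `x_T = ∏_{v ∈ T} x_v` -/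
noncomputable def xprod (T : Finset (Fin d)) : MvPolynomial (Fin d) k := ∏ v ∈ T, X v

variable (M : Type*) [AddCommGroup M] [Module (MvPolynomial (Fin d) k) M]

/-- the localization `M_{x_T}` -/
abbrev LocAt (T : Finset (Fin d)) := LocalizedModule (Submonoid.powers (xprod k d T)) M

theorem isUnit_of_subset {S T : Finset (Fin d)} (h : S ⊆ T)
    (s : Submonoid.powers (xprod k d S)) :
    IsUnit (algebraMap (MvPolynomial (Fin d) k)
      (Module.End (MvPolynomial (Fin d) k) (LocAt k d M T)) s) := by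
  obtain ⟨_, N, rfl⟩ := s
  simp only [map_pow]
  apply IsUnit.pow
  have hT : IsUnit (algebraMap (MvPolynomial (Fin d) k)
      (Module.End (MvPolynomial (Fin d) k) (LocAt k d M T)) (xprod k d T)) :=
    IsLocalizedModule.map_units (LocalizedModule.mkLinearMap (Submonoid.powers (xprod k d T)) M)
      ⟨xprod k d T, Submonoid.mem_powers _⟩
  obtain ⟨c, hc⟩ : xprod k d S ∣ xprod k d T := Finset.prod_dvd_prod_of_subset _ _ _ h
  have hc' := congrArg (algebraMap (MvPolynomial (Fin d) k)
      (Module.End (MvPolynomial (Fin d) k) (LocAt k d M T))) hc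
  rw [map_mul] at hc'
  rw [hc'] at hT
  have hcomm : Commute (algebraMap (MvPolynomial (Fin d) k)
      (Module.End (MvPolynomial (Fin d) k) (LocAt k d M T)) (xprod k d S))
      (algebraMap (MvPolynomial (Fin d) k)
      (Module.End (MvPolynomial (Fin d) k) (LocAt k d M T)) c) := Algebra.commute_algebraMap_left _ _
  exact (hcomm.isUnit_mul_iff.1 hT).1

/-- the canonical map `M_{x_S} → M_{x_T}` for `S ⊆ T` -/
noncomputable def res {S T : Finset (Fin d)} (h : S ⊆ T) :
    LocAt k d M S →ₗ[MvPolynomial (Fin d) k] LocAt k d M T :=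
  LocalizedModule.lift (Submonoid.powers (xprod k d S))
    (LocalizedModule.mkLinearMap (Submonoid.powers (xprod k d T)) M) (isUnit_of_subset k d M h)

/-- Čech cochains of degree `q` -/
abbrev CechC (q : ℕ) := (T : {T : Finset (Fin d) // T.card = q}) → LocAt k d M T.1

/-- for `v ∈ T`, the map `c ↦ c_{T \ {v}}|_{M_{x_T}}` -/
noncomputable def cechFace (q : ℕ) (T : {T : Finset (Fin d) // T.card = q + 1})
    (v : {v // v ∈ T.1}) : CechC k d M q →ₗ[MvPolynomial (Fin d) k] LocAt k d M T.1 :=
  (res k d M (Finset.erase_subset v.1 T.1)).comp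
    (LinearMap.proj (⟨T.1.erase v.1, by rw [Finset.card_erase_of_mem v.2, T.2]; rfl⟩ :
      {T : Finset (Fin d) // T.card = q}))

/-- the Čech differential -/
noncomputable def cechD (q : ℕ) :
    CechC k d M q →ₗ[MvPolynomial (Fin d) k] CechC k d M (q + 1) :=
  LinearMap.pi fun T => ∑ v : {v // v ∈ T.1},
    ((-1 : MvPolynomial (Fin d) k) ^ (T.1.filter (· < v.1)).card) • cechFace k d M q T v

/-- the boundaries of degree `q` -/
noncomputable def cechB : (q : ℕ) → Submodule (MvPolynomial (Fin d) k) (CechC k d M q)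
  | 0 => ⊥
  | q + 1 => LinearMap.range (cechD k d M q)

/-- the cocycles of degree `q` -/
noncomputable abbrev cechZ (q : ℕ) : Submodule (MvPolynomial (Fin d) k) (CechC k d M q) :=
  LinearMap.ker (cechD k d M q)

/-- `H^q_𝔪(M)`, the `q`-th local cohomology module with support in the homogeneous maximal ideal -/
abbrev LocalCohomology (q : ℕ) := cechZ k d M q ⧸ (cechB k d M q).submoduleOf (cechZ k d M q)

/-- the class of a cocycle -/
noncomputable def lcMk (q : ℕ) : cechZ k d M q →ₗ[MvPolynomial (Fin d) k] LocalCohomology k d M q :=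
  Submodule.mkQ _

variable {k d}

/-- the elements of degree `j` of `(R/J)_{x_T}`: fractions `p / x_T^N` with `p` homogeneous of degree
`j + N |T|` -/
def IsHomogeneousElt (J : Ideal (MvPolynomial (Fin d) k)) (T : Finset (Fin d)) (j : ℤ)
    (m : LocAt k d (MvPolynomial (Fin d) k ⧸ J) T) : Prop :=
  ∃ (N e : ℕ) (p : MvPolynomial (Fin d) k), p.IsHomogeneous e ∧ (e : ℤ) - N * T.card = j ∧
    m = LocalizedModule.mk (Ideal.Quotient.mk J p)
      ⟨xprod k d T ^ N, Submonoid.pow_mem _ (Submonoid.mem_powers _) N⟩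

/-- `ξ ∈ H^q_𝔪(R/J)_j` : the class `ξ` is represented by a cocycle all of whose components are
homogeneous of degree `j` -/
def InDegree (J : Ideal (MvPolynomial (Fin d) k)) (q : ℕ) (j : ℤ)
    (ξ : LocalCohomology k d (MvPolynomial (Fin d) k ⧸ J) q) : Prop :=
  ∃ z : cechZ k d (MvPolynomial (Fin d) k ⧸ J) q,
    (∀ T : {T : Finset (Fin d) // T.card = q}, IsHomogeneousElt J T.1 j (z.1 T)) ∧ ξ = lcMk k d (MvPolynomial (Fin d) k ⧸ J) q z

end Def

end Pool.Agent.Helper13
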