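import Pool.Agent.Helper13.Blk
import Pool.Agent.H29.KLemma

/-!
# Expansion of `f` in monomials
-/

set_option linter.unusedSectionVars false

namespace Pool.Agent.Helper13

open Finset AddMonoidAlgebra

variable (k : Type*) [Field k]

/-- exponents of the monomials of `f` -/
def tau (u j i : ℕ) : ExL := ![2 - u, u, 0, 0, 0, 0, 2 - j, j, 0, 0, 0, 2 - i, i, 0, 0, 0]

/-- coefficients of `f` -/
def ct (u j i : ℕ) : k :=
  if (u, j, i) = (1, 0, 0) ∨ (u, j, i) = (0, 1, 0) ∨ (u, j, i) = (0, 0, 1) ∨ (u, j, i) = (2, 2, 0) ∨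
    (u, j, i) = (2, 0, 2) ∨ (u, j, i) = (0, 2, 2) then 1
  else if (u, j, i) = (2, 1, 1) ∨ (u, j, i) = (1, 2, 1) ∨ (u, j, i) = (1, 1, 2) then 2 else 0

theorem F_coeff (u j i : ℕ) (hu : u < 3) (hj : j < 3) (hi : i < 3) :
    (K.F k j i).coeff u = ct k u j i := by
  have h2 : (2 : Polynomial k) = Polynomial.C 2 := rfl
  interval_cases j <;> interval_cases i <;> interval_cases u <;>
  simp [K.F, ct, Polynomial.coeff_X, Polynomial.coeff_X_pow, Polynomial.coeff_one, h2]

theorem t16_mul (μ : ExL) (i : Fin 16) (r : k) :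
    single μ r * t16 k i = single (μ + Pi.single i 1) r := by
  rw [t16, single_mul_single, mul_one]

theorem tau_single (u j i : ℕ) (hu : u < 3) (hj : j < 3) (hi : i < 3) (r : k) :
    single (tau u j i) r = algebraMap k (E16 k) r * (t16 k 0 ^ (2 - u) * t16 k 1 ^ u *
      (t16 k 6 ^ (2 - j) * t16 k 7 ^ j) * (t16 k 11 ^ (2 - i) * t16 k 12 ^ i)) := by
  simp only [t16, single_pow, single_mul_single, one_pow, mul_one]
  rw [← Algebra.smul_def, smul_single, smul_eq_mul, mul_one]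
  congr 1
  ext a
  fin_cases a <;> simp [tau] <;> omega

theorem fL_expand : fL k = ∑ u ∈ range 3, ∑ j ∈ range 3, ∑ i ∈ range 3,
    single (tau u j i) (ct k u j i) := by
  have h : ∑ u ∈ range 3, ∑ j ∈ range 3, ∑ i ∈ range 3, single (tau u j i) (ct k u j i) =
      ∑ u ∈ range 3, ∑ j ∈ range 3, ∑ i ∈ range 3, algebraMap k (E16 k) (ct k u j i) *
      (t16 k 0 ^ (2 - u) * t16 k 1 ^ u *
      (t16 k 6 ^ (2 - j) * t16 k 7 ^ j) * (t16 k 11 ^ (2 - i) * t16 k 12 ^ i)) := by
    refine sum_congr rfl fun u hu => sum_congr rfl fun j hj => sum_congr rfl fun i hi => ?_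
    exact tau_single k u j i (mem_range.1 hu) (mem_range.1 hj) (mem_range.1 hi) _
  rw [h]
  simp only [sum_range_succ, sum_range_zero, zero_add]
  have e1 : (single 0 1 : E16 k) = 1 := AddMonoidAlgebra.one_def.symm
  have e2 : (single 0 2 : E16 k) = 2 := (AddMonoidAlgebra.ofNat_def 2).symm
  simp [ct, fL, ff]
  simp only [e1, e2]
  ring

/-- the coefficients of `f * p` -/
theorem fL_mul_coeff (p : E16 k) (ν : ExL) :
    (fL k * p).coeff ν = ∑ u ∈ range 3, ∑ j ∈ range 3, ∑ i ∈ range 3,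
      ct k u j i * p.coeff (ν - tau u j i) := by
  rw [fL_expand, sum_mul, coeff_sum, Finsupp.finsetSum_apply]
  refine sum_congr rfl fun u _ => ?_
  rw [sum_mul, coeff_sum, Finsupp.finsetSum_apply]
  refine sum_congr rfl fun j _ => ?_
  rw [sum_mul, coeff_sum, Finsupp.finsetSum_apply]
  refine sum_congr rfl fun i _ => ?_
  rw [coeff_single_mul_eq_mul_coeff (m₂ := ν - tau u j i)]
  intro m' _
  constructor
  · intro h; rw [← h]; abel
  · intro h; rw [h]; abel

end Pool.Agent.Helper13
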