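import Pool.Agent.Helper13.Lat
import Pool.Agent.Helper17.Upset

/-!
# Part F1: statuses in fine degrees of `E16`
-/

set_option linter.unusedSectionVars false

namespace Pool.Agent.Helper13

open Finset AddMonoidAlgebra

variable (k : Type*) [Field k]

theorem Status.le_of_ne {V : Type*} [LinearOrder V] {F : Finset V → Prop} {κ : Kind} {q : ℕ}
    (h : Status k F κ) (hq : κ ≠ .sph q) : ZF k F q ≤ BF k F q := by
  cases κ with
  | acyc => exact h q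
  | sph d => exact h.1 q (by intro h'; apply hq; congr 1; exact_mod_cast h'.symm)

/-- if the equations fail the up-set is empty -/
theorem ZF_eq_bot_of_not_eqn {m : ℕ} {δ : ℤ} {μ : ExL} (h : ¬ Eqn δ μ) (q : ℤ) :
    ZF k (FL m δ μ) q ≤ BF k (FL m δ μ) q := by
  intro u hu
  have : u = 0 := by
    funext T
    by_contra hT
    exact h (hu.1 T hT).1.1
  rw [this]
  exact Submodule.zero_mem _

theorem FL_eq_of_eqn {m : ℕ} {δ : ℤ} {μ : ExL} (h : Eqn δ μ) :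
    FL m δ μ = Fxyz (negP μ) (lowP m δ μ) (ryP m μ) (cyP m μ) (rzP m μ) (czP m μ) := by
  funext T
  simp [FL, h]

/-- the kind of the fine degree `μ` -/
noncomputable def kd (m : ℕ) (δ : ℤ) (μ : ExL) : Kind :=
  (kindX (negP μ) (lowP m δ μ)).add ((kindY (ryP m μ) (cyP m μ)).add (kindY (rzP m μ) (czP m μ)))

theorem status_FL {m : ℕ} {δ : ℤ} {μ : ExL} (h : Eqn δ μ) : Status k (FL m δ μ) (kd m δ μ) := by
  rw [FL_eq_of_eqn h]
  exact kind_status k _ _ _ _ _ _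

/-- the region where the cohomology in degree 9 lives -/
def Reg (m : ℕ) (δ : ℤ) (μ : ExL) : Prop :=
  (0 ≤ μ 0 ∧ 0 ≤ μ 1 ∧ 0 ≤ μ 2 ∧ 0 ≤ μ 3 ∧ 0 ≤ μ 4 ∧ 0 ≤ μ 5) ∧
  μ 0 + μ 1 + μ 2 + μ 3 + μ 4 + μ 5 + δ < 3 * m ∧
  (μ 6 < 6 * m ∧ μ 7 < 0 ∧ μ 8 < m ∧ μ 9 < 2 * m ∧ μ 10 < 0) ∧
  (μ 11 < 6 * m ∧ μ 12 < 0 ∧ μ 13 < m ∧ μ 14 < 2 * m ∧ μ 15 < 0)

theorem forall_negP {μ : ExL} : (∀ a, ¬ negP μ a) ↔
    (0 ≤ μ 0 ∧ 0 ≤ μ 1 ∧ 0 ≤ μ 2 ∧ 0 ≤ μ 3 ∧ 0 ≤ μ 4 ∧ 0 ≤ μ 5) := by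
  constructor
  · intro h
    exact ⟨not_lt.1 (h 0), not_lt.1 (h 1), not_lt.1 (h 2), not_lt.1 (h 3), not_lt.1 (h 4),
      not_lt.1 (h 5)⟩
  · rintro ⟨h0, h1, h2, h3, h4, h5⟩ a
    fin_cases a
    exacts [not_lt.2 h0, not_lt.2 h1, not_lt.2 h2, not_lt.2 h3, not_lt.2 h4, not_lt.2 h5]

theorem forall_negP' {μ : ExL} : (∀ a, negP μ a) ↔
    (μ 0 < 0 ∧ μ 1 < 0 ∧ μ 2 < 0 ∧ μ 3 < 0 ∧ μ 4 < 0 ∧ μ 5 < 0) := by
  constructor
  · intro h
    exact ⟨h 0, h 1, h 2, h 3, h 4, h 5⟩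
  · rintro ⟨h0, h1, h2, h3, h4, h5⟩ a
    fin_cases a
    exacts [h0, h1, h2, h3, h4, h5]

theorem forall_fin2 {P : Fin 2 → Prop} : (∀ b, P b) ↔ P 0 ∧ P 1 := by
  constructor
  · intro h; exact ⟨h 0, h 1⟩
  · rintro ⟨h0, h1⟩ b; fin_cases b; exacts [h0, h1]

theorem forall_fin3 {P : Fin 3 → Prop} : (∀ b, P b) ↔ P 0 ∧ P 1 ∧ P 2 := by
  constructor
  · intro h; exact ⟨h 0, h 1, h 2⟩
  · rintro ⟨h0, h1, h2⟩ b; fin_cases b; exacts [h0, h1, h2]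

theorem kindX_cases (neg : Fin 6 → Prop) (low : Prop) :
    (kindX neg low = .sph 6 ∧ ∀ a, neg a) ∨ (kindX neg low = .sph 1 ∧ (∀ a, ¬ neg a) ∧ low) ∨
      kindX neg low = .acyc := by
  unfold kindX
  split_ifs with h1 h2
  · exact Or.inl ⟨rfl, h1⟩
  · exact Or.inr (Or.inl ⟨rfl, h2⟩)
  · exact Or.inr (Or.inr rfl)

theorem kindY_cases (r : Fin 2 → Prop) (c : Fin 3 → Prop) :
    (kindY r c = .sph 2 ∧ (∀ b, r b) ∧ ∀ i, ¬ c i) ∨ (kindY r c = .sph 4 ∧ (∀ b, r b) ∧ ∀ i, c i) ∨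
      (kindY r c = .sph 3 ∧ (∀ b, ¬ r b) ∧ ∀ i, c i) ∨ kindY r c = .acyc := by
  unfold kindY
  split_ifs with h1 h2 h3
  · exact Or.inl ⟨rfl, h1⟩
  · exact Or.inr (Or.inl ⟨rfl, h2⟩)
  · exact Or.inr (Or.inr (Or.inl ⟨rfl, h3⟩))
  · exact Or.inr (Or.inr (Or.inr rfl))

/-- the y-part: kind 2, 4 (with all thresholds violated) or acyclic -/
theorem kindY_y {m : ℕ} {δ : ℤ} (hδ : 0 ≤ δ) {μ : ExL} (h : Eqn δ μ) :
    kindY (ryP m μ) (cyP m μ) = .sph 2 ∨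
      (kindY (ryP m μ) (cyP m μ) = .sph 4 ∧ μ 6 < 6 * m ∧ μ 7 < 0 ∧ μ 8 < m ∧ μ 9 < 2 * m ∧ μ 10 < 0) ∨
      kindY (ryP m μ) (cyP m μ) = .acyc := by
  rcases kindY_cases (ryP m μ) (cyP m μ) with h1 | h1 | h1 | h1
  · exact Or.inl h1.1
  · obtain ⟨h1, h2, h3⟩ := h1
    have a0 : μ 6 < 6 * m := h2 0
    have a1 : μ 7 < 0 := h2 1
    have b0 : μ 8 < m := h3 0
    have b1 : μ 9 < 2 * m := h3 1
    have b2 : μ 10 < 0 := h3 2
    exact Or.inr (Or.inl ⟨h1, a0, a1, b0, b1, b2⟩)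
  · exfalso
    obtain ⟨h1, h2, h3⟩ := h1
    have a0 : ¬ μ 6 < 6 * m := h2 0
    have a1 : ¬ μ 7 < 0 := h2 1
    have b0 : μ 8 < m := h3 0
    have b1 : μ 9 < 2 * m := h3 1
    have b2 : μ 10 < 0 := h3 2
    have := h.1
    omega
  · exact Or.inr (Or.inr h1)

theorem kindY_z {m : ℕ} {δ : ℤ} (hδ : 0 ≤ δ) {μ : ExL} (h : Eqn δ μ) :
    kindY (rzP m μ) (czP m μ) = .sph 2 ∨
      (kindY (rzP m μ) (czP m μ) = .sph 4 ∧ μ 11 < 6 * m ∧ μ 12 < 0 ∧ μ 13 < m ∧ μ 14 < 2 * m ∧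
        μ 15 < 0) ∨
      kindY (rzP m μ) (czP m μ) = .acyc := by
  rcases kindY_cases (rzP m μ) (czP m μ) with h1 | h1 | h1 | h1
  · exact Or.inl h1.1
  · obtain ⟨h1, h2, h3⟩ := h1
    have a0 : μ 11 < 6 * m := h2 0
    have a1 : μ 12 < 0 := h2 1
    have b0 : μ 13 < m := h3 0
    have b1 : μ 14 < 2 * m := h3 1
    have b2 : μ 15 < 0 := h3 2
    exact Or.inr (Or.inl ⟨h1, a0, a1, b0, b1, b2⟩)
  · exfalso
    obtain ⟨h1, h2, h3⟩ := h1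
    have a0 : ¬ μ 11 < 6 * m := h2 0
    have a1 : ¬ μ 12 < 0 := h2 1
    have b0 : μ 13 < m := h3 0
    have b1 : μ 14 < 2 * m := h3 1
    have b2 : μ 15 < 0 := h3 2
    have := h.2
    omega
  · exact Or.inr (Or.inr h1)

/-- no cohomology in degree 8 -/
theorem fine8 {m : ℕ} {δ : ℤ} (hδ : 0 ≤ δ) (μ : ExL) :
    ZF k (FL m δ μ) 8 ≤ BF k (FL m δ μ) 8 := by
  by_cases h : Eqn δ μ
  · have := Status.le_of_ne k (q := 8) (status_FL k (m := m) h) ?_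
    · exact_mod_cast this
    · unfold kd
      rcases kindX_cases (negP μ) (lowP m δ μ) with ⟨hx, -⟩ | ⟨hx, -⟩ | hx <;>
      rcases kindY_y hδ h (m := m) with hy | ⟨hy, -⟩ | hy <;>
      rcases kindY_z hδ h (m := m) with hz | ⟨hz, -⟩ | hz <;>
      rw [hx, hy, hz] <;> decide
  · exact_mod_cast ZF_eq_bot_of_not_eqn k h _

/-- cohomology in degree 9 only in the region `Reg` -/
theorem fine9 {m : ℕ} {δ : ℤ} (hδ : 0 ≤ δ) (μ : ExL) (hμ : ¬ Reg m δ μ) :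
    ZF k (FL m δ μ) 9 ≤ BF k (FL m δ μ) 9 := by
  by_cases h : Eqn δ μ
  · have := Status.le_of_ne k (q := 9) (status_FL k (m := m) h) ?_
    · exact_mod_cast this
    · unfold kd
      rcases kindX_cases (negP μ) (lowP m δ μ) with ⟨hx, -⟩ | ⟨hx, hx1, hx2⟩ | hx <;>
      rcases kindY_y hδ h (m := m) with hy | ⟨hy, hy'⟩ | hy <;>
      rcases kindY_z hδ h (m := m) with hz | ⟨hz, hz'⟩ | hz <;>
      first
      | (rw [hx, hy, hz]; decide)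
      | (exfalso; exact hμ ⟨forall_negP.1 hx1, hx2, hy', hz'⟩)
  · exact_mod_cast ZF_eq_bot_of_not_eqn k h _

/-- no cohomology at all when the x-degree is high and not negative -/
theorem fine_high {m : ℕ} {δ : ℤ} (q : ℕ) (μ : ExL)
    (h1 : 3 * m ≤ μ 0 + μ 1 + μ 2 + μ 3 + μ 4 + μ 5 + δ)
    (h2 : 0 ≤ μ 0 + μ 1 + μ 2 + μ 3 + μ 4 + μ 5) :
    ZF k (FL m δ μ) q ≤ BF k (FL m δ μ) q := by
  by_cases h : Eqn δ μ
  · refine Status.le_of_ne k (q := q) (status_FL k (m := m) h) ?_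
    unfold kd
    rcases kindX_cases (negP μ) (lowP m δ μ) with hx | hx | hx
    · exfalso
      obtain ⟨h0, h1, h2, h3, h4, h5⟩ := forall_negP'.1 hx.2
      omega
    · exfalso
      have := hx.2.2
      unfold lowP at this
      omega
    · rw [hx]
      simp [Kind.add]
  · exact ZF_eq_bot_of_not_eqn k h _

/-- the up-set of the region `Reg` -/
def Fst : Finset (Fin 18) → Prop :=
  Fxyz (fun _ => False) True (fun _ => True) (fun _ => True) (fun _ => True) (fun _ => True)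

theorem status_Fst : Status k Fst (.sph 9) := by
  have h := kind_status k (fun _ => False) True (fun _ => True) (fun _ => True) (fun _ => True)
    (fun _ => True)
  have hx : kindX (fun _ => False) True = .sph 1 := by simp [kindX]
  have hy : kindY (fun _ => True) (fun _ => True) = .sph 4 := by simp [kindY]
  rw [hx, hy] at h
  exact h

theorem FL_eq_Fst {m : ℕ} {δ : ℤ} {μ : ExL} (h : Eqn δ μ) (hμ : Reg m δ μ) :
    FL m δ μ = Fst := by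
  obtain ⟨hx, hl, hy, hz⟩ := hμ
  rw [FL_eq_of_eqn h]
  have e1 : negP μ = fun _ => False := by
    funext a
    exact eq_false (forall_negP.2 hx a)
  have e2 : lowP m δ μ = True := eq_true hl
  have e3 : ryP m μ = fun _ => True := by
    funext a
    exact eq_true ((forall_fin2 (P := ryP m μ)).2 ⟨hy.1, hy.2.1⟩ a)
  have e4 : cyP m μ = fun _ => True := by
    funext a
    exact eq_true ((forall_fin3 (P := cyP m μ)).2 ⟨hy.2.2.1, hy.2.2.2.1, hy.2.2.2.2⟩ a)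
  have e5 : rzP m μ = fun _ => True := by
    funext a
    exact eq_true ((forall_fin2 (P := rzP m μ)).2 ⟨hz.1, hz.2.1⟩ a)
  have e6 : czP m μ = fun _ => True := by
    funext a
    exact eq_true ((forall_fin3 (P := czP m μ)).2 ⟨hz.2.2.1, hz.2.2.2.1, hz.2.2.2.2⟩ a)
  rw [e1, e2, e3, e4, e5, e6]
  rfl

theorem BF_mono {V : Type*} [LinearOrder V] {F F' : Finset V → Prop} (h : ∀ T, F T → F' T) (q : ℤ) :
    BF k F q ≤ BF k F' q := by
  refine Submodule.map_mono ?_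
  intro u hu T hT
  exact ⟨h T (hu T hT).1, (hu T hT).2⟩

end Pool.Agent.Helper13
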