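import Pool.Agent.Helper13.FExp
import Pool.Agent.Helper13.PartF1

/-!
# The kernel of multiplication by `f`: reduction to polynomials
-/

set_option linter.unusedSectionVars false

namespace Pool.Agent.Helper13

open Finset

variable (k : Type*) [Field k]

/-- the monomials of block degree `l'` in the region `Reg m 2` -/
def muf (p : ExL) (Ls t b c : ℤ) : ExL :=
  ![Ls - t, t, p 2, p 3, p 4, p 5, p 8 + p 9 + p 10 - 1 + b, -1 - b, p 8, p 9, p 10,
    p 13 + p 14 + p 15 - 1 + c, -1 - c, p 13, p 14, p 15]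

/-- the monomials of block degree `l' + ef` in the region `Reg m 0` -/
def nuf (p : ExL) (Ls n b c : ℤ) : ExL :=
  ![Ls + 2 - n, n, p 2, p 3, p 4, p 5, p 8 + p 9 + p 10 + 1 + b, -1 - b, p 8, p 9, p 10,
    p 13 + p 14 + p 15 + 1 + c, -1 - c, p 13, p 14, p 15]

theorem nuf_sub (p : ExL) (Ls n b c : ℤ) (u j i : ℕ) :
    nuf p Ls n b c - tau u j i = muf p Ls (n - u) (b + j) (c + i) := by
  ext a
  fin_cases a <;> simp [nuf, muf, tau] <;> ring

theorem muf_self {p : ExL} (he : Eqn 2 p) :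
    muf p (p 0 + p 1) (p 1) (-1 - p 7) (-1 - p 12) = p := by
  obtain ⟨h1, h2⟩ := he
  ext a
  fin_cases a <;> simp [muf] <;> omega

theorem F_eq (j i : ℕ) (hj : j < 3) (hi : i < 3) :
    K.F k j i = ∑ u ∈ range 3, Polynomial.monomial u (ct k u j i) := by
  have h2 : (2 : Polynomial k) = Polynomial.C 2 := rfl
  ext n
  rw [Polynomial.finsetSum_coeff]
  simp only [Polynomial.coeff_monomial]
  rw [Finset.sum_ite_eq']
  split_ifs with h
  · exact F_coeff k n j i (mem_range.1 h) hj hi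
  · have hn : 3 ≤ n := by simpa using h
    interval_cases j <;> interval_cases i <;>
    simp [K.F, Polynomial.coeff_X, Polynomial.coeff_X_pow, Polynomial.coeff_one, h2] <;> omega

theorem kernel_zero (m : ℕ) (hm : 1 ≤ m) (N : ℕ)
    (hN : ∀ P Q, (3 * m - 3) + 3 ≤ P → (3 * m - 3) + 3 ≤ Q → N ≤ P + Q →
      ∀ U : ℕ → ℕ → Polynomial k, (∀ b c, b ≤ P → c ≤ Q → (U b c).natDegree ≤ 3 * m - 3) →
      K.Rel P Q U → ∀ b c, b ≤ P → c ≤ Q → U b c = 0)
    (G : ExL → k) (p : ExL) (hp : Reg m 2 p) (he : Eqn 2 p)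
    (P Q : ℕ) (hP : (P : ℤ) = 6 * m - (p 8 + p 9 + p 10)) (hQ : (Q : ℤ) = 6 * m - (p 13 + p 14 + p 15))
    (hPQ : N ≤ P + Q)
    (ha : ∀ n b c : ℕ, (n : ℤ) ≤ p 0 + p 1 + 2 → b + 2 ≤ P → c + 2 ≤ Q →
      ∑ u ∈ range 3, ∑ j ∈ range 3, ∑ i ∈ range 3,
        ct k u j i * G (nuf p (p 0 + p 1) n b c - tau u j i) = 0)
    (hb : ∀ t : ℤ, ∀ b c : ℕ, (t < 0 ∨ p 0 + p 1 < t) → b ≤ P → c ≤ Q →
      G (muf p (p 0 + p 1) t b c) = 0) : G p = 0 := by
  obtain ⟨⟨x0, x1, x2, x3, x4, x5⟩, hl, ⟨y0, y1, y2, y3, y4⟩, ⟨z0, z1, z2, z3, z4⟩⟩ := hp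
  obtain ⟨e1, e2⟩ := he
  obtain ⟨Ls, hLs⟩ := Int.eq_ofNat_of_zero_le (show 0 ≤ p 0 + p 1 by omega)
  rw [hLs] at ha hb
  let U : ℕ → ℕ → Polynomial k := fun b c =>
    ∑ t ∈ range (Ls + 1), Polynomial.monomial t (G (muf p Ls t b c))
  have hU : ∀ b c n, (U b c).coeff n = if n < Ls + 1 then G (muf p Ls n b c) else 0 := by
    intro b c n
    simp only [U]
    rw [Polynomial.finsetSum_coeff]
    simp only [Polynomial.coeff_monomial]
    rw [Finset.sum_ite_eq']
    simp only [mem_range]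
  have hdeg : ∀ b c, (U b c).natDegree ≤ 3 * m - 3 := by
    intro b c
    rw [Polynomial.natDegree_le_iff_coeff_eq_zero]
    intro n hn
    rw [hU, if_neg]
    omega
  have hrel : K.Rel P Q U := by
    intro b c hb' hc'
    ext n
    rw [Polynomial.finsetSum_coeff, Polynomial.coeff_zero]
    have h1 : ∀ j ∈ range 3, (∑ i ∈ range 3, K.F k j i * U (b + j) (c + i)).coeff n =
        ∑ i ∈ range 3, ∑ u ∈ range 3, ct k u j i *
          (if u ≤ n then (U (b + j) (c + i)).coeff (n - u) else 0) := by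
      intro j hj
      rw [Polynomial.finsetSum_coeff]
      refine sum_congr rfl fun i hi => ?_
      rw [F_eq k j i (mem_range.1 hj) (mem_range.1 hi), sum_mul, Polynomial.finsetSum_coeff]
      refine sum_congr rfl fun u hu => ?_
      rw [← Polynomial.C_mul_X_pow_eq_monomial, mul_assoc, Polynomial.coeff_C_mul,
        mul_comm (Polynomial.X ^ u), Polynomial.coeff_mul_X_pow']
    rw [sum_congr rfl h1]
    by_cases hn : n ≤ Ls + 2
    · have h2 := ha n b c (by omega) hb' hc'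
      rw [sum_comm] at h2
      refine Eq.trans (sum_congr rfl fun j hj => ?_) h2
      rw [sum_comm]
      refine sum_congr rfl fun u hu => ?_
      refine sum_congr rfl fun i hi => ?_
      have hu' := mem_range.1 hu
      have hj' := mem_range.1 hj
      have hi' := mem_range.1 hi
      rw [nuf_sub]
      congr 1
      split_ifs with h3
      · rw [hU]
        split_ifs with h4
        · congr 1
          rw [Nat.cast_sub h3, Nat.cast_add, Nat.cast_add]
        · have := hb ((n : ℤ) - u) (b + j) (c + i) (Or.inr (by omega)) (by omega) (by omega)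
          rw [Nat.cast_add, Nat.cast_add] at this
          exact this.symm
      · have := hb ((n : ℤ) - u) (b + j) (c + i) (Or.inl (by omega)) (by omega) (by omega)
        rw [Nat.cast_add, Nat.cast_add] at this
        exact this.symm
    · refine sum_eq_zero fun j hj => sum_eq_zero fun i hi => sum_eq_zero fun u hu => ?_
      have hu' := mem_range.1 hu
      rw [hU]
      have h4 : ¬ (n - u < Ls + 1) := by omega
      rw [if_neg h4]
      simp
  obtain ⟨b0, hb0⟩ := Int.eq_ofNat_of_zero_le (show 0 ≤ -1 - p 7 by omega)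
  obtain ⟨c0, hc0⟩ := Int.eq_ofNat_of_zero_le (show 0 ≤ -1 - p 12 by omega)
  obtain ⟨t0, ht0⟩ := Int.eq_ofNat_of_zero_le (show 0 ≤ p 1 by omega)
  have h5 := hN P Q (by omega) (by omega) hPQ U (fun b c _ _ => hdeg b c) hrel b0 c0 (by omega)
    (by omega)
  have h6 := hU b0 c0 t0
  rw [h5, Polynomial.coeff_zero, if_pos (by omega), ← hb0, ← hc0, ← ht0, ← hLs,
    muf_self ⟨e1, e2⟩] at h6
  exact h6.symm

end Pool.Agent.Helper13
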