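import Pool.Agent.Helper13.PartF2
import Pool.Agent.Helper13.Kern

/-!
# Finiteness of `H^8(L_m / f L'_m)`
-/

set_option linter.unusedSectionVars false

namespace Pool.Agent.Helper13

open Finset AddMonoidAlgebra

variable (k : Type*) [Field k]

theorem cof_mulLeft_fL (e : Finset (Fin 18) → E16 k) (ν : ExL) :
    cof (post (LinearMap.mulLeft k (fL k)) e) ν = ∑ u ∈ range 3, ∑ j ∈ range 3, ∑ i ∈ range 3,
      ct k u j i • cof e (ν - tau u j i) := by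
  funext T
  simp only [cof, post_apply, LinearMap.mulLeft_apply, Finset.sum_apply, Pi.smul_apply, smul_eq_mul]
  exact fL_mul_coeff k _ _

/-- the up-set of a degree with violated row/column conditions, some negative `x_0` or `x_1`
exponent, is contained in `Fst` -/
theorem FL_le_Fst {m : ℕ} {μ : ExL} (hn : ∃ a, negP μ a)
    (hy : μ 6 < 6 * m ∧ μ 7 < 0 ∧ μ 8 < m ∧ μ 9 < 2 * m ∧ μ 10 < 0)
    (hz : μ 11 < 6 * m ∧ μ 12 < 0 ∧ μ 13 < m ∧ μ 14 < 2 * m ∧ μ 15 < 0) (T : Finset (Fin 18))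
    (h : FL m 2 μ T) : Fst T := by
  obtain ⟨-, ⟨hx1, hx2⟩, ⟨h1, h2⟩, h3, h4⟩ := h
  obtain ⟨a, ha⟩ := hn
  refine ⟨⟨fun _ h => h.elim, fun _ => ⟨a, hx1 a ha⟩⟩, ⟨fun b _ => h1 b ?_, fun i _ => h2 i ?_⟩,
    fun b _ => h3 b ?_, fun i _ => h4 i ?_⟩
  · fin_cases b; exacts [hy.1, hy.2.1]
  · fin_cases i; exacts [hy.2.2.1, hy.2.2.2.1, hy.2.2.2.2]
  · fin_cases b; exacts [hz.1, hz.2.1]
  · fin_cases i; exacts [hz.2.2.1, hz.2.2.2.1, hz.2.2.2.2]

/-- the main vanishing statement in one block degree -/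
theorem van_piece (m : ℕ) (hm : 1 ≤ m) (N : ℕ)
    (hN : ∀ P Q, (3 * m - 3) + 3 ≤ P → (3 * m - 3) + 3 ≤ Q → N ≤ P + Q →
      ∀ U : ℕ → ℕ → Polynomial k, (∀ b c, b ≤ P → c ≤ Q → (U b c).natDegree ≤ 3 * m - 3) →
      K.Rel P Q U → ∀ b c, b ≤ P → c ≤ Q → U b c = 0) (l : Lam)
    (hl : ∀ p ∈ SL (l - ef), Reg m 2 p → Eqn 2 p →
      (N : ℤ) ≤ (6 * m - (p 8 + p 9 + p 10)) + (6 * m - (p 13 + p 14 + p 15))) :
    Van (fr (LF k m 0) (SL l)) (fr (JF k m) (SL l)) 8 := by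
  intro c hc
  obtain ⟨hc1, hc2⟩ := mem_Zc.1 hc
  have htr := tr_f_fr k m (l - ef)
  rw [sub_add_cancel] at htr
  have h1 : cobd k _ c ∈ Zc (fr (JF k m) (SL l)) (botF k) 9 := by
    refine mem_Zc.2 ⟨by norm_num at hc2; exact hc2, ?_⟩
    rw [cobd_cobd]
    exact Submodule.zero_mem _
  obtain ⟨e, he, he'⟩ := htr.lift_Z (fr_mono (mono_LF k m 2) _) (mono_botF k) h1
  have hce : cobd k _ c = post (LinearMap.mulLeft k (fL k)) e := by
    funext T
    have := (he' T).1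
    exact sub_eq_zero.1 this
  obtain ⟨he1, he2⟩ := mem_Zc.1 he
  have hde : cobd k _ e = 0 := by
    funext T
    exact (he2 T).1
  rw [LF_eq] at he1
  obtain ⟨-, ε, -, hε0, hε⟩ := status_Fst k
  -- the key vanishing
  have key : ∀ p ∈ SL (l - ef), Reg m 2 p → Eqn 2 p → ε (cof e p) = 0 := by
    intro p hpS hpR hpE
    have hN' := hl p hpS hpR hpE
    obtain ⟨⟨x0, x1, x2, x3, x4, x5⟩, hlow, ⟨y0, y1, y2, y3, y4⟩, ⟨z0, z1, z2, z3, z4⟩⟩ := id hpR
    obtain ⟨q1, q2⟩ := id hpE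
    have hpS' := SL_iff.1 hpS
    obtain ⟨P, hP⟩ := Int.eq_ofNat_of_zero_le (show 0 ≤ 6 * m - (p 8 + p 9 + p 10) by omega)
    obtain ⟨Q, hQ⟩ := Int.eq_ofNat_of_zero_le (show 0 ≤ 6 * m - (p 13 + p 14 + p 15) by omega)
    refine kernel_zero k m hm N hN (fun μ => ε (cof e μ)) p hpR hpE P Q hP.symm hQ.symm (by omega)
      ?_ ?_
    · intro n b d hn hb hd
      let ν := nuf p (p 0 + p 1) n b d
      have hνR : Reg m 0 ν := by
        refine ⟨⟨?_, ?_, ?_, ?_, ?_, ?_⟩, ?_, ⟨?_, ?_, ?_, ?_, ?_⟩, ⟨?_, ?_, ?_, ?_, ?_⟩⟩ <;>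
        simp only [ν, nuf, Matrix.cons_val] <;> omega
      have hνE : Eqn 0 ν := by
        constructor <;> simp only [ν, nuf, Matrix.cons_val] <;> ring
      have hνc : cof c ν ∈ CF k Fst 8 := by
        have := cof_mem_CF (k := k) (F := FL m 0) (S := SL l) (q := 8) (c := c)
          (by rw [← LF_eq]; exact hc1) ν
        rwa [FL_eq_Fst hνE hνR] at this
      have h3 : cof (cobd k _ c) ν ∈ BF k Fst 9 := by
        rw [cof_cobd]
        exact ⟨_, by norm_num; exact hνc, rfl⟩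
      have h4 := hε0 _ h3
      rw [hce, cof_mulLeft_fL] at h4
      simpa only [map_sum, map_smul, smul_eq_mul] using h4
    · intro t b d ht hb hd
      let μ := muf p (p 0 + p 1) t b d
      have hneg : ∃ a, negP μ a := by
        rcases ht with ht | ht
        · refine ⟨1, ?_⟩
          change μ 1 < 0
          simp only [μ, muf, Matrix.cons_val]; omega
        · refine ⟨0, ?_⟩
          change μ 0 < 0
          simp only [μ, muf, Matrix.cons_val]; omega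
      have hy : μ 6 < 6 * m ∧ μ 7 < 0 ∧ μ 8 < m ∧ μ 9 < 2 * m ∧ μ 10 < 0 := by
        refine ⟨?_, ?_, ?_, ?_, ?_⟩ <;> simp only [μ, muf, Matrix.cons_val] <;> omega
      have hz : μ 11 < 6 * m ∧ μ 12 < 0 ∧ μ 13 < m ∧ μ 14 < 2 * m ∧ μ 15 < 0 := by
        refine ⟨?_, ?_, ?_, ?_, ?_⟩ <;> simp only [μ, muf, Matrix.cons_val] <;> omega
      have hR : ¬ Reg m 2 μ := by
        intro hR
        obtain ⟨a, ha⟩ := hneg
        exact forall_negP.2 hR.1 a ha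
      have h3 := fine9 k (m := m) (δ := 2) (by norm_num) μ hR (cof_mem_ZF he1 hde μ)
      exact hε0 _ (BF_mono k (FL_le_Fst hneg hy hz) _ h3)
  -- hence `e` is a coboundary
  have h5 : ∀ μ ∈ SL (l - ef), cof e μ ∈ BF k (FL m 2 μ) 9 := by
    intro μ hμ
    have h6 := cof_mem_ZF he1 hde μ
    by_cases hE : Eqn 2 μ
    · by_cases hR : Reg m 2 μ
      · rw [FL_eq_Fst hE hR] at h6 ⊢
        exact hε _ h6 (key μ hμ hR hE)
      · exact fine9 k (by norm_num) μ hR h6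
    · exact ZF_eq_bot_of_not_eqn k hE _ h6
  obtain ⟨e', he', hee⟩ := exists_cobd_of_cof he1 h5
  rw [← LF_eq] at he'
  norm_num at he'
  have h7 : post (LinearMap.mulLeft k (fL k)) e' ∈ Coch (fr (JF k m) (SL l)) 8 := htr.map_coch he'
  have h8 : c - post (LinearMap.mulLeft k (fL k)) e' ∈ Zc (fr (LF k m 0) (SL l)) (botF k) 8 := by
    refine mem_Zc.2 ⟨Submodule.sub_mem _ hc1 (Coch_mono (fr_le_fr (JF_le_LF k m) _) h7), ?_⟩
    rw [map_sub, cobd_post, hee, hce, sub_self]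
    exact Submodule.zero_mem _
  obtain ⟨a, ha, b, hb, hab⟩ := mem_Bc.1 (van_LF8 k m 0 le_rfl _ h8)
  have hb0 : b = 0 := by
    funext T
    exact (hb T).1
  refine mem_Bc.2 ⟨a, ha, _, h7, ?_⟩
  rw [hb0, add_zero] at hab
  rw [hab]
  abel

theorem fin_LF (m : ℕ) (hm : 1 ≤ m) : FinC (LF k m 0) (JF k m) 8 := by
  obtain ⟨N, hN⟩ := K.T_fin k (3 * m - 3)
  let B : ℤ := 12 * m + N + 10
  refine FinC.of_pieces (deg := blkL) (fun l => hom_LF k m 0 _) (fun l => hom_loc_fLL k m l)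
    (Finset.Icc (fun _ => -B) (fun _ => B)) ?_ (fun l => fin_piece k m l)
  intro l hls
  refine van_piece k m hm N hN l ?_
  intro p hp hR hE
  by_contra hcon
  apply hls
  have hp' := SL_iff.1 hp
  have h0 : (l - ef) 0 = l 0 - 2 := rfl
  have h1 : (l - ef) 1 = l 1 := by simp [ef]
  have h2 : (l - ef) 2 = l 2 := by simp [ef]
  have h3 : (l - ef) 3 = l 3 := by simp [ef]
  have h4 : (l - ef) 4 = l 4 := by simp [ef]
  have h5 : (l - ef) 5 = l 5 := by simp [ef]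
  have h6 : (l - ef) 6 = l 6 := by simp [ef]
  rw [h0, h1, h2, h3, h4, h5, h6] at hp'
  obtain ⟨⟨x0, x1, x2, x3, x4, x5⟩, hlow, ⟨y0, y1, y2, y3, y4⟩, ⟨z0, z1, z2, z3, z4⟩⟩ := hR
  rw [Finset.mem_Icc, Pi.le_def, Pi.le_def]
  simp only [B]
  refine ⟨fun i => ?_, fun i => ?_⟩
  · fin_cases i <;> simp only [Fin.zero_eta, Fin.mk_one, Fin.reduceFinMk] <;> omega
  · fin_cases i <;> simp only [Fin.zero_eta, Fin.mk_one, Fin.reduceFinMk] <;> omega

end Pool.Agent.Helper13
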