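import Pool.Agent.Helper13.Fin8
import Pool.Agent.Helper19.LC.Main1
import Pool.Agent.Helper17.NE
import Pool.Agent.Helper13.BridgeMain

/-!
# The disproof: assembly
-/

set_option linter.unusedSectionVars false

namespace Pool.Agent.Helper13

open Finset AddMonoidAlgebra

attribute [local instance] MvPolynomial.gradedAlgebra

theorem exists_class (k : Type*) [Field k] (n : ℕ) (hn : 3 ≤ n) :
    ∃ ξ : LocalCohomology k 18 (MvPolynomial (Fin 18) k ⧸ II k ^ n) 7,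
      InDegree (II k ^ n) 7 (12 * n - 4 - 2 * n ^ 2) ξ ∧ ξ ≠ 0 := by
  have h1 := nonvan k n (by omega) _ rfl (ne_piece k n hn)
  unfold Van at h1
  rw [SetLike.not_le_iff_exists] at h1
  obtain ⟨c, hc, hc'⟩ := h1
  refine Br.bridge_ne k 18 (II k ^ n) 7 _ c (fr_Zc_le hc)
    (not_mem_Bc_of_fr (hom_fam_top k _) (hom_fam_II_pow k n _) hc hc') ?_
  intro T μ hμ
  have h2 : μ ∈ SM _ := ((mem_Zc.1 hc).1 T).1.2 μ hμ
  have h3 : blkL (expMap μ) = ![3 * (n : ℤ) - 1, n - 1, 2 * n - 1, -1, n - 1, 2 * n - 1,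
    3 * n + 2 - 2 * n ^ 2] := h2
  have e0 := congrFun h3 0
  have e1 := congrFun h3 1
  have e2 := congrFun h3 2
  have e3 := congrFun h3 3
  have e4 := congrFun h3 4
  have e5 := congrFun h3 5
  have e6 := congrFun h3 6
  simp only [blkL, expMap, AddMonoidHom.coe_mk, ZeroHom.coe_mk, Matrix.cons_val] at e0 e1 e2 e3 e4 e5 e6
  simp only [Fin.sum_univ_succ, Fin.succ_zero_eq_one, Fin.succ_one_eq_two, Fin.sum_univ_zero]
  simp only [Fin.reduceSucc]
  linarith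

theorem final (k : Type*) [Field k] : ∃ (d i : ℕ) (I : Ideal (MvPolynomial (Fin d) k)),
    I.IsHomogeneous (MvPolynomial.homogeneousSubmodule (Fin d) k) ∧
    (∀ n : ℕ, 1 ≤ n → IsFiniteLength (MvPolynomial (Fin d) k)
      (LocalCohomology k d (MvPolynomial (Fin d) k ⧸ I ^ n) i)) ∧
    ∀ α : ℤ, ∃ N : ℕ, ∀ n : ℕ, N ≤ n → ∃ j : ℤ, j < - α * n ∧
      ∃ ξ : LocalCohomology k d (MvPolynomial (Fin d) k ⧸ I ^ n) i, InDegree (I ^ n) i j ξ ∧ ξ ≠ 0 := by
  refine ⟨18, 7, II k, II_homogeneous k, ?_, ?_⟩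
  · intro n _
    exact Br.bridge_fin k 18 (II k ^ n) 7 (fin_all k n (fun m hm => fin_LF k m hm))
  · intro α
    refine ⟨α.natAbs + 12, fun n hn => ⟨12 * n - 4 - 2 * n ^ 2, ?_, exists_class k n (by omega)⟩⟩
    have h1 : (α.natAbs : ℤ) + 12 ≤ n := by exact_mod_cast hn
    have h2 : |α| + 12 ≤ n := by rwa [Int.natCast_natAbs] at h1
    have h3 : α ≤ |α| := le_abs_self α
    have h4 : 0 ≤ |α| := abs_nonneg α
    nlinarith

end Pool.Agent.Helper13
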