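import Mathlib

/-!
# Local cohomology at the homogeneous maximal ideal, by the Čech complex

For elements `x_0, …, x_{d-1}` of a commutative ring `R` and an `R`-module `M` the Čech complex is
`C^q(M) = ∏_{T ⊆ {0,…,d-1}, |T| = q} M_{x_T}` with `x_T = ∏_{v ∈ T} x_v` and
`(∂c)_T = ∑_{v ∈ T} (-1)^{#{w ∈ T, w < v}} c_{T \ {v}}|_{M_{x_T}}`; its cohomology is `H^q(M)`.
For `R = k[x_0, …, x_{d-1}]` and the variables this is `H^q_𝔪(M)`.
-/

namespace Pool.Agent.Helper13.LC

open MvPolynomial

section General

variable {R : Type*} [CommRing R] {d : ℕ} (x : Fin d → R)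

/-- the powers of `x_T = ∏_{v ∈ T} x_v` -/
def powT (T : Finset (Fin d)) : Submonoid R := Submonoid.powers (∏ v ∈ T, x v)

variable (M : Type*) [AddCommGroup M] [Module R M]

/-- the localization `M_{x_T}` -/
def Loc (T : Finset (Fin d)) : Type _ := LocalizedModule (powT x T) M

noncomputable instance instAddLoc (T : Finset (Fin d)) : AddCommGroup (Loc x M T) :=
  OreLocalization.instAddCommGroup

noncomputable instance instModLoc (T : Finset (Fin d)) : Module R (Loc x M T) :=
  OreLocalization.instModuleOfIsScalarTower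

theorem isUnit_powT {S T : Finset (Fin d)} (h : S ⊆ T) (s : powT x S) :
    IsUnit (algebraMap R (Module.End R (Loc x M T)) s) := by
  obtain ⟨_, N, rfl⟩ := s
  simp only [map_pow]
  apply IsUnit.pow
  have hT : IsUnit (algebraMap R (Module.End R (Loc x M T)) (∏ v ∈ T, x v)) :=
    IsLocalizedModule.map_units (S := Submonoid.powers (∏ v ∈ T, x v))
      (LocalizedModule.mkLinearMap (Submonoid.powers (∏ v ∈ T, x v)) M)
      ⟨∏ v ∈ T, x v, Submonoid.mem_powers _⟩
  obtain ⟨c, hc⟩ : (∏ v ∈ S, x v) ∣ (∏ v ∈ T, x v) := Finset.prod_dvd_prod_of_subset _ _ _ h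
  have hc' := congrArg (algebraMap R (Module.End R (Loc x M T))) hc
  rw [map_mul] at hc'
  rw [hc'] at hT
  have hcomm : Commute (algebraMap R (Module.End R (Loc x M T)) (∏ v ∈ S, x v))
      (algebraMap R (Module.End R (Loc x M T)) c) := Algebra.commute_algebraMap_left _ _
  exact (hcomm.isUnit_mul_iff.1 hT).1

/-- the canonical map `M → M_{x_T}` -/
noncomputable def toLoc (T : Finset (Fin d)) : M →ₗ[R] Loc x M T :=
  LocalizedModule.mkLinearMap (powT x T) M

/-- the canonical map `M_{x_S} → M_{x_T}` for `S ⊆ T` -/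
noncomputable def res {S T : Finset (Fin d)} (h : S ⊆ T) : Loc x M S →ₗ[R] Loc x M T :=
  LocalizedModule.lift (powT x S) (toLoc x M T) (isUnit_powT x M h)

/-- the fraction `m / x_T^N` in `M_{x_T}` -/
noncomputable def frac (T : Finset (Fin d)) (m : M) (N : ℕ) : Loc x M T :=
  LocalizedModule.mk m ⟨(∏ v ∈ T, x v) ^ N, N, rfl⟩

/-- the Čech cochains of degree `q` -/
def Coch (q : ℕ) : Type _ := (T : {T : Finset (Fin d) // T.card = q}) → Loc x M T.1

noncomputable instance instAddCoch (q : ℕ) : AddCommGroup (Coch x M q) := Pi.addCommGroup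

noncomputable instance instModCoch (q : ℕ) : Module R (Coch x M q) := Pi.module _ _ _

theorem card_erase {q : ℕ} {T : Finset (Fin d)} (hT : T.card = q + 1) {v : Fin d} (hv : v ∈ T) :
    (T.erase v).card = q := by
  rw [Finset.card_erase_of_mem hv, hT]; rfl

/-- the component `c ↦ c_T` -/
noncomputable def comp {q : ℕ} (T : Finset (Fin d)) (hT : T.card = q) :
    Coch x M q →ₗ[R] Loc x M T :=
  LinearMap.proj (⟨T, hT⟩ : {T : Finset (Fin d) // T.card = q})

/-- for `v ∈ T`, the map `c ↦ (-1)^{#{w ∈ T, w < v}} c_{T \ {v}}|_{M_{x_T}}` -/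
noncomputable def face {q : ℕ} {T : Finset (Fin d)} (hT : T.card = q + 1) {v : Fin d} (hv : v ∈ T) :
    Coch x M q →ₗ[R] Loc x M T :=
  ((-1 : R) ^ (T.filter (· < v)).card) •
    (res x M (T.erase_subset v)).comp (comp x M (T.erase v) (card_erase hT hv))

/-- the Čech differential -/
noncomputable def diff (q : ℕ) : Coch x M q →ₗ[R] Coch x M (q + 1) :=
  LinearMap.pi fun T => ∑ v : {v // v ∈ T.1}, face x M T.2 v.2

/-- the cocycles of degree `q` -/
noncomputable def cocycles (q : ℕ) : Submodule R (Coch x M q) := LinearMap.ker (diff x M q)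

/-- the coboundaries of degree `q` -/
noncomputable def coboundaries : (q : ℕ) → Submodule R (Coch x M q)
  | 0 => ⊥
  | q + 1 => LinearMap.range (diff x M q)

/-- the cohomology of the Čech complex in degree `q` -/
def CechH (q : ℕ) : Type _ := cocycles x M q ⧸ (coboundaries x M q).submoduleOf (cocycles x M q)

noncomputable instance instAddCechH (q : ℕ) : AddCommGroup (CechH x M q) :=
  Submodule.Quotient.addCommGroup _

noncomputable instance instModCechH (q : ℕ) : Module R (CechH x M q) :=
  Submodule.Quotient.module _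

/-- the cohomology class of a cocycle -/
noncomputable def cls (q : ℕ) (c : Coch x M q) (hc : c ∈ cocycles x M q) : CechH x M q :=
  Submodule.Quotient.mk (⟨c, hc⟩ : cocycles x M q)

/-- `c` is a cocycle with cohomology class `ξ` -/
def Represents {q : ℕ} (c : Coch x M q) (ξ : CechH x M q) : Prop :=
  ∃ hc : c ∈ cocycles x M q, cls x M q c hc = ξ

end General

section Poly

variable {k : Type*} [Field k] {d : ℕ} (J : Ideal (MvPolynomial (Fin d) k))

/-- `R/J` as an `R`-module, `R = k[x_0, …, x_{d-1}]` -/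
def Quo : Type _ := MvPolynomial (Fin d) k ⧸ J

noncomputable instance instAddQuo : AddCommGroup (Quo J) := Submodule.Quotient.addCommGroup J

noncomputable instance instModQuo : Module (MvPolynomial (Fin d) k) (Quo J) :=
  Submodule.Quotient.module J

/-- the residue class of a polynomial in `R/J` -/
noncomputable def Quo.mk (p : MvPolynomial (Fin d) k) : Quo J := Ideal.Quotient.mk J p

/-- `H^i_𝔪(R/J)` for `R = k[x_0, …, x_{d-1}]` and `𝔪 = (x_0, …, x_{d-1})` -/
def LocalCohomology (i : ℕ) : Type _ := CechH (X : Fin d → MvPolynomial (Fin d) k) (Quo J) i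

noncomputable instance instAddLC (i : ℕ) : AddCommGroup (LocalCohomology J i) :=
  instAddCechH X (Quo J) i

noncomputable instance instModLC (i : ℕ) : Module (MvPolynomial (Fin d) k) (LocalCohomology J i) :=
  instModCechH X (Quo J) i

/-- the elements of degree `j` of `(R/J)_{x_T}`: fractions `p / x_T^N` with `p` homogeneous of degree
`j + N |T|` -/
def HomogElt (T : Finset (Fin d)) (j : ℤ) (m : Loc (X : Fin d → MvPolynomial (Fin d) k) (Quo J) T) :
    Prop :=
  ∃ (N e : ℕ) (p : MvPolynomial (Fin d) k), p.IsHomogeneous e ∧ (e : ℤ) - N * T.card = j ∧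
    m = frac X (Quo J) T (Quo.mk J p) N

/-- `ξ ∈ H^i_𝔪(R/J)_j` : the class `ξ` is represented by a cocycle all of whose components are
homogeneous of degree `j` -/
def InDegree (i : ℕ) (j : ℤ) (ξ : LocalCohomology J i) : Prop :=
  ∃ c : Coch (X : Fin d → MvPolynomial (Fin d) k) (Quo J) i,
    (∀ T : {T : Finset (Fin d) // T.card = i}, HomogElt J T.1 j (c T)) ∧
    Represents X (Quo J) c ξ

end Poly

end Pool.Agent.Helper13.LC
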