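import Pool.Agent.Helper13.Final
import Pool.Agent.Helper13.LCShort

namespace Pool.Agent.Helper13.LC

open MvPolynomial

attribute [local instance] MvPolynomial.gradedAlgebra

set_option maxHeartbeats 4000000 in
theorem final' (k : Type*) [Field k] : ∃ (d i : ℕ) (I : Ideal (MvPolynomial (Fin d) k)),
    I.IsHomogeneous (MvPolynomial.homogeneousSubmodule (Fin d) k) ∧
    (∀ n : ℕ, 1 ≤ n → IsFiniteLength (MvPolynomial (Fin d) k) (LocalCohomology (I ^ n) i)) ∧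
    ∀ α : ℤ, ∃ N : ℕ, ∀ n : ℕ, N ≤ n → ∃ j : ℤ, j < - α * n ∧
      ∃ ξ : LocalCohomology (I ^ n) i, InDegree (I ^ n) i j ξ ∧ ξ ≠ 0 := by
  obtain ⟨d, i, I, h1, h2, h3⟩ := final k
  refine ⟨d, i, I, h1, h2, fun α => ?_⟩
  obtain ⟨N, hN⟩ := h3 α
  refine ⟨N, fun n hn => ?_⟩
  obtain ⟨j, hj, ξ, ⟨z, hz, hz'⟩, hne⟩ := hN n hn
  exact ⟨j, hj, ξ, ⟨z.1, hz, z.2, hz'.symm⟩, hne⟩

end Pool.Agent.Helper13.LC
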