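import Pool.Agent.Helper13.PartA

/-!
# Part A2: gradings, and families of monomial subspaces
-/

set_option linter.unusedSectionVars false

namespace Pool.Agent.Helper13

open Finset AddMonoidAlgebra

section Flt

variable {k : Type*} [Field k] {M : Type*}

/-- elements supported on `S` -/
noncomputable def SupL (k : Type*) [Field k] {M : Type*} (S : Set M) : Submodule k (AddMonoidAlgebra k M) where
  carrier := {p | ∀ μ, p.coeff μ ≠ 0 → μ ∈ S}
  add_mem' := by
    intro a b ha hb μ hμ
    by_cases h : a.coeff μ = 0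
    · exact hb μ (by intro h'; apply hμ; simp [h, h'])
    · exact ha μ h
  zero_mem' := by intro μ hμ; simp at hμ
  smul_mem' := by
    intro c a ha μ hμ
    exact ha μ (by intro h'; apply hμ; simp [h'])

theorem mem_SupL {S : Set M} {p : AddMonoidAlgebra k M} :
    p ∈ SupL k S ↔ ∀ μ, p.coeff μ ≠ 0 → μ ∈ S := Iff.rfl

open Classical in
/-- the projection to the part supported on `S` -/
noncomputable def flt (k : Type*) [Field k] {M : Type*} (S : Set M) :
    AddMonoidAlgebra k M →ₗ[k] AddMonoidAlgebra k M where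
  toFun p := ofCoeff (p.coeff.filter (· ∈ S))
  map_add' p q := by ext μ; simp [Finsupp.filter_apply]
  map_smul' c p := by ext μ; simp [Finsupp.filter_apply]

open Classical in
theorem flt_coeff (S : Set M) (p : AddMonoidAlgebra k M) (μ : M) :
    (flt k S p).coeff μ = if μ ∈ S then p.coeff μ else 0 := by
  simp [flt, Finsupp.filter_apply]

theorem flt_mem (S : Set M) (p : AddMonoidAlgebra k M) : flt k S p ∈ SupL k S := by
  intro μ hμ
  classical
  rw [flt_coeff] at hμ
  by_contra h
  simp [h] at hμ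

theorem flt_eq {S : Set M} {p : AddMonoidAlgebra k M} (hp : p ∈ SupL k S) : flt k S p = p := by
  classical
  ext μ
  rw [flt_coeff]
  split_ifs with h
  · rfl
  · by_contra h'
    exact h (hp μ (fun h'' => h' h''.symm))

theorem flt_mem_SupL (S : Set M) {S' : Set M} {p : AddMonoidAlgebra k M} (hp : p ∈ SupL k S') :
    flt k S p ∈ SupL k S' := by
  classical
  intro μ hμ
  rw [flt_coeff] at hμ
  split_ifs at hμ with h
  · exact hp μ hμ
  · exact absurd rfl hμ

/-- sum over the fibres of a degree function -/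
theorem sum_flt {Λ : Type*} (deg : M → Λ) (p : AddMonoidAlgebra k M) (s : Finset Λ)
    (hs : ∀ μ, p.coeff μ ≠ 0 → deg μ ∈ s) :
    ∑ l ∈ s, flt k (deg ⁻¹' {l}) p = p := by
  classical
  ext μ
  rw [coeff_sum, Finsupp.finsetSum_apply]
  simp only [flt_coeff, Set.mem_preimage, Set.mem_singleton_iff]
  rw [Finset.sum_ite_eq]
  split_ifs with h
  · rfl
  · by_contra h'
    exact h (hs μ (fun h'' => h' h''.symm))

end Flt

section GradedFam

variable {k : Type*} [Field k] {V : Type*} [LinearOrder V] {M : Type*}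
variable {G J : Finset V → Submodule k (AddMonoidAlgebra k M)} {q : ℤ}

/-- the part of the family supported on `S` -/
noncomputable def fr (G : Finset V → Submodule k (AddMonoidAlgebra k M)) (S : Set M) :
    Finset V → Submodule k (AddMonoidAlgebra k M) := fun T => G T ⊓ SupL k S

/-- the family is stable under the projection `flt S` -/
def Hom (G : Finset V → Submodule k (AddMonoidAlgebra k M)) (S : Set M) : Prop :=
  ∀ T, ∀ p ∈ G T, flt k S p ∈ G T

theorem fr_mono (hG : Mono G) (S : Set M) : Mono (fr G S) :=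
  fun T T' h => inf_le_inf_right _ (hG T T' h)

theorem fr_le_fr (h : ∀ T, J T ≤ G T) (S : Set M) : ∀ T, fr J S T ≤ fr G S T :=
  fun T => inf_le_inf_right _ (h T)

theorem fr_le (S : Set M) (T : Finset V) : fr G S T ≤ G T := inf_le_left

theorem flt_Coch {S : Set M} (hG : Hom G S) {c : Finset V → AddMonoidAlgebra k M}
    (hc : c ∈ Coch G q) : post (flt k S) c ∈ Coch (fr G S) q :=
  fun T => ⟨⟨hG T _ (hc T).1, flt_mem _ _⟩, fun h => by simp [(hc T).2 h]⟩

theorem flt_Zc {S : Set M} (hG : Hom G S) (hJ : Hom J S) {c : Finset V → AddMonoidAlgebra k M}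
    (hc : c ∈ Zc G J q) : post (flt k S) c ∈ Zc (fr G S) (fr J S) q := by
  refine mem_Zc.2 ⟨flt_Coch hG hc.1, ?_⟩
  rw [cobd_post]
  exact flt_Coch hJ hc.2

theorem flt_Bc {S : Set M} (hG : Hom G S) (hJ : Hom J S) {c : Finset V → AddMonoidAlgebra k M}
    (hc : c ∈ Bc G J q) : post (flt k S) c ∈ Bc (fr G S) (fr J S) q := by
  obtain ⟨a, ha, b, hb, rfl⟩ := mem_Bc.1 hc
  exact mem_Bc.2 ⟨_, flt_Coch hG ha, _, flt_Coch hJ hb, by rw [map_add, cobd_post]⟩

theorem post_flt_eq {S : Set M} {c : Finset V → AddMonoidAlgebra k M}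
    (hc : ∀ T, c T ∈ SupL k S) : post (flt k S) c = c := by
  funext T
  exact flt_eq (hc T)

theorem fr_Zc_le {S : Set M} : Zc (fr G S) (fr J S) q ≤ Zc G J q := by
  intro c hc
  exact mem_Zc.2 ⟨Coch_mono (fr_le S) hc.1, Coch_mono (fr_le S) hc.2⟩

theorem fr_Bc_le {S : Set M} : Bc (fr G S) (fr J S) q ≤ Bc G J q := by
  intro c hc
  obtain ⟨a, ha, b, hb, rfl⟩ := mem_Bc.1 hc
  exact mem_Bc.2 ⟨_, Coch_mono (fr_le S) ha, _, Coch_mono (fr_le S) hb, rfl⟩

/-- total vanishing implies vanishing of the part supported on `S` -/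
theorem Van.fr {S : Set M} (hG : Hom G S) (hJ : Hom J S) (h : Van G J q) :
    Van (fr G S) (fr J S) q := by
  intro c hc
  have h1 := flt_Bc hG hJ (h (fr_Zc_le hc))
  rwa [post_flt_eq (fun T => (hc.1 T).1.2)] at h1

theorem not_mem_Bc_of_fr {S : Set M} (hG : Hom G S) (hJ : Hom J S)
    {c : Finset V → AddMonoidAlgebra k M} (hc : c ∈ Zc (Helper13.fr G S) (Helper13.fr J S) q)
    (hc' : c ∉ Bc (Helper13.fr G S) (Helper13.fr J S) q) : c ∉ Bc G J q := by
  intro h
  apply hc'
  have h1 := flt_Bc hG hJ h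
  rwa [post_flt_eq (fun T => (hc.1 T).1.2)] at h1

/-- from the pieces to the total: vanishing outside a finite set of degrees and finiteness in every
degree give finiteness -/
theorem FinC.of_pieces [Finite V] {Λ : Type*} (deg : M → Λ) (hG : ∀ l, Hom G (deg ⁻¹' {l}))
    (hJ : ∀ l, Hom J (deg ⁻¹' {l})) (s : Finset Λ)
    (h0 : ∀ l, l ∉ s → Van (fr G (deg ⁻¹' {l})) (fr J (deg ⁻¹' {l})) q)
    (h1 : ∀ l, FinC (fr G (deg ⁻¹' {l})) (fr J (deg ⁻¹' {l})) q) : FinC G J q := by
  classical
  choose W hW hW' using h1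
  refine ⟨⨆ l ∈ s, W l, ?_, ?_⟩
  · exact Submodule.fg_biSup s W (fun l _ => hW l)
  · intro c hc
    have : Fintype V := Fintype.ofFinite V
    let t : Finset Λ := Finset.univ.biUnion (fun T : Finset V => (c T).coeff.support.image deg)
    have ht : c = ∑ l ∈ t, post (flt k (deg ⁻¹' {l})) c := by
      funext T
      rw [Finset.sum_apply]
      simp only [post_apply]
      rw [sum_flt]
      intro μ hμ
      simp only [t, mem_biUnion, mem_univ, true_and, mem_image, Finsupp.mem_support_iff]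
      exact ⟨T, μ, hμ, rfl⟩
    rw [ht]
    refine Submodule.sum_mem _ fun l hl => ?_
    have h2 := flt_Zc (hG l) (hJ l) hc
    by_cases hls : l ∈ s
    · have h3 := hW' l h2
      obtain ⟨b, hb, w, hw, h4⟩ := Submodule.mem_sup.1 h3
      rw [← h4]
      refine Submodule.add_mem_sup (fr_Bc_le hb) ?_
      exact (le_iSup₂_of_le l hls le_rfl : W l ≤ ⨆ l ∈ s, W l) hw
    · exact Submodule.mem_sup_left (fr_Bc_le (h0 l hls h2))

/-- restriction of a transfer to degrees -/
theorem Tr.fr {M' : Type*} {ψ : AddMonoidAlgebra k M →ₗ[k] AddMonoidAlgebra k M'}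
    {G' J' : Finset V → Submodule k (AddMonoidAlgebra k M')} (h : Tr ψ G J G' J')
    {S : Set M} {S' : Set M'} (hψ : ∀ p, ψ (flt k S p) = flt k S' (ψ p)) (hG : Hom G S)
    (hJ' : Hom J' S') : Tr ψ (fr G S) (fr J S) (fr G' S') (fr J' S') := by
  have h0 : ∀ p ∈ SupL k S, ψ p ∈ SupL k S' := by
    intro p hp
    rw [← flt_eq hp, hψ]
    exact flt_mem _ _
  refine ⟨?_, ?_, ?_⟩
  · rintro T p ⟨hp, hp'⟩
    exact ⟨h.map T p hp, h0 p hp'⟩
  · rintro T p ⟨hp, hp'⟩
    constructor
    · rintro ⟨h1, h2⟩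
      exact ⟨(h.iff T p hp).1 h1, hp'⟩
    · rintro ⟨h1, h2⟩
      exact ⟨(h.iff T p hp).2 h1, h0 p hp'⟩
  · rintro T p' ⟨hp, hp'⟩
    obtain ⟨p, hp1, hp2⟩ := h.surj T p' hp
    refine ⟨flt k S p, ⟨hG T p hp1, flt_mem _ _⟩, ?_⟩
    have : p' - ψ (flt k S p) = flt k S' (p' - ψ p) := by
      rw [map_sub, hψ, flt_eq hp']
    rw [this]
    exact ⟨hJ' T _ hp2, flt_mem _ _⟩

end GradedFam

/-! ### monomial families -/

section Mon

variable {k : Type*} [Field k] {V : Type*} [LinearOrder V] {M : Type*}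
variable {F : M → Finset V → Prop} {q : ℤ}

/-- the family of subspaces spanned by the monomials `μ` with `F μ T` -/
noncomputable def FamF (k : Type*) [Field k] {V M : Type*} (F : M → Finset V → Prop) :
    Finset V → Submodule k (AddMonoidAlgebra k M) := fun T => SupL k {μ | F μ T}

/-- the coefficient cochain -/
def cof (c : Finset V → AddMonoidAlgebra k M) (μ : M) : Finset V → k := fun T => (c T).coeff μ

theorem cof_cobd (c : Finset V → AddMonoidAlgebra k M) (μ : M) :
    cof (cobd k _ c) μ = cobd k k (cof c μ) := by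
  funext T
  simp only [cof, cobd_apply', coeff_sum, Finsupp.finsetSum_apply, coeff_smul, Finsupp.smul_apply]

theorem cof_mem_CF {S : Set M} {c : Finset V → AddMonoidAlgebra k M}
    (hc : c ∈ Coch (fr (FamF k F) S) q) (μ : M) : cof c μ ∈ CF k (F μ) q := by
  intro T hT
  refine ⟨(hc T).1.1 μ hT, ?_⟩
  by_contra h
  apply hT
  simp [cof, (hc T).2 h]

theorem cof_eq_zero {S : Set M} {c : Finset V → AddMonoidAlgebra k M}
    (hc : c ∈ Coch (fr (FamF k F) S) q) {μ : M} (hμ : μ ∉ S) : cof c μ = 0 := by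
  funext T
  by_contra h
  exact hμ ((hc T).1.2 μ h)

theorem cof_mem_ZF {S : Set M} {c : Finset V → AddMonoidAlgebra k M}
    (hc : c ∈ Coch (fr (FamF k F) S) q) (hc' : cobd k _ c = 0) (μ : M) :
    cof c μ ∈ ZF k (F μ) q := by
  refine ⟨cof_mem_CF hc μ, ?_⟩
  change cobd k k (cof c μ) = 0
  rw [← cof_cobd, hc']
  funext T
  simp [cof]

/-- assembling: a cochain all of whose coefficient cochains are coboundaries is a coboundary -/
theorem exists_cobd_of_cof [Finite V] {S : Set M} {c : Finset V → AddMonoidAlgebra k M}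
    (hc : c ∈ Coch (fr (FamF k F) S) q) (h : ∀ μ ∈ S, cof c μ ∈ BF k (F μ) q) :
    ∃ a ∈ Coch (fr (FamF k F) S) (q - 1), cobd k _ a = c := by
  classical
  have : Fintype V := Fintype.ofFinite V
  have h' : ∀ μ, ∃ a : Finset V → k, a ∈ CF k (F μ) (q - 1) ∧ (μ ∈ S → cobd k k a = cof c μ) := by
    intro μ
    by_cases hμ : μ ∈ S
    · obtain ⟨a, ha, ha'⟩ := h μ hμ
      exact ⟨a, ha, fun _ => ha'⟩
    · exact ⟨0, Submodule.zero_mem _, fun h => absurd h hμ⟩
  choose a ha ha' using h'
  let t : Finset M := Finset.univ.biUnion (fun T : Finset V => (c T).coeff.support)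
  have htS : ∀ μ ∈ t, μ ∈ S := by
    intro μ hμ
    simp only [t, mem_biUnion, mem_univ, true_and, Finsupp.mem_support_iff] at hμ
    obtain ⟨T, hT⟩ := hμ
    exact (hc T).1.2 μ hT
  have hcoef : ∀ (T : Finset V) (μ : M),
      (∑ ν ∈ t, single ν (a ν T) : AddMonoidAlgebra k M).coeff μ = if μ ∈ t then a μ T else 0 := by
    intro T μ
    rw [coeff_sum, Finsupp.finsetSum_apply]
    simp only [coeff_single, Finsupp.single_apply]
    rw [Finset.sum_ite_eq']
  refine ⟨fun T => ∑ ν ∈ t, single ν (a ν T), ?_, ?_⟩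
  · intro T
    refine ⟨⟨?_, ?_⟩, ?_⟩
    · intro μ hμ
      rw [hcoef] at hμ
      split_ifs at hμ with h1
      · exact (ha μ T hμ).1
      · exact absurd rfl hμ
    · intro μ hμ
      rw [hcoef] at hμ
      split_ifs at hμ with h1
      · exact htS μ h1
      · exact absurd rfl hμ
    · intro hT
      refine Finset.sum_eq_zero fun ν _ => ?_
      by_cases h1 : a ν T = 0
      · rw [h1, single_zero]
      · exact absurd (ha ν T h1).2 hT
  · funext T
    ext μ
    have h1 : (cobd k _ (fun T => ∑ ν ∈ t, single ν (a ν T)) T).coeff μ =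
        cobd k k (cof (fun T => ∑ ν ∈ t, (single ν (a ν T) : AddMonoidAlgebra k M)) μ) T := by
      rw [← cof_cobd]; rfl
    rw [h1]
    by_cases hμ : μ ∈ t
    · have h2 : cof (fun T => ∑ ν ∈ t, (single ν (a ν T) : AddMonoidAlgebra k M)) μ = a μ := by
        funext T'
        simp only [cof]
        rw [hcoef, if_pos hμ]
      rw [h2, ha' μ (htS μ hμ)]
      rfl
    · have h2 : cof (fun T => ∑ ν ∈ t, (single ν (a ν T) : AddMonoidAlgebra k M)) μ = 0 := by
        funext T'
        simp only [cof]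
        rw [hcoef, if_neg hμ]
        rfl
      rw [h2, map_zero]
      simp only [t, mem_biUnion, mem_univ, true_and, Finsupp.mem_support_iff, not_exists,
        not_not] at hμ
      simp [hμ T]

/-- vanishing in a set of fine degrees -/
theorem van_of_fine [Finite V] {S : Set M} (h : ∀ μ ∈ S, ZF k (F μ) q ≤ BF k (F μ) q) :
    Van (fr (FamF k F) S) (fun _ => ⊥) q := by
  intro c hc
  obtain ⟨h1, h2⟩ := mem_Zc.1 hc
  have h3 : cobd k _ c = 0 := by
    funext T
    exact (h2 T).1
  obtain ⟨a, ha, ha'⟩ := exists_cobd_of_cof h1 (fun μ hμ => h μ hμ (cof_mem_ZF h1 h3 μ))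
  exact mem_Bc.2 ⟨a, ha, 0, Submodule.zero_mem _, by rw [ha', add_zero]⟩

/-- finiteness when the cohomology vanishes outside a finite set of fine degrees -/
theorem fin_of_fine [Finite V] {S : Set M} (s : Finset M)
    (h : ∀ μ ∈ S, μ ∉ s → ZF k (F μ) q ≤ BF k (F μ) q) :
    FinC (fr (FamF k F) S) (fun _ => ⊥) q := by
  classical
  have : Fintype V := Fintype.ofFinite V
  let ι : (Finset V → (s → k)) →ₗ[k] (Finset V → AddMonoidAlgebra k M) :=
    { toFun := fun g T => ∑ μ : s, single μ.1 (g T μ)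
      map_add' := by
        intro g g'
        funext T
        simp [single_add, Finset.sum_add_distrib]
      map_smul' := by
        intro r g
        funext T
        simp [Finset.smul_sum] }
  refine ⟨LinearMap.range ι, ?_, ?_⟩
  · rw [LinearMap.range_eq_map]
    exact (Module.Finite.fg_top).map _
  · intro c hc
    obtain ⟨h1, h2⟩ := mem_Zc.1 hc
    have h3 : cobd k _ c = 0 := by
      funext T
      exact (h2 T).1
    -- split `c`
    let c1 : Finset V → AddMonoidAlgebra k M := post (flt k (↑s : Set M)ᶜ) c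
    let c2 : Finset V → AddMonoidAlgebra k M := post (flt k (↑s : Set M)) c
    have hc12 : c = c1 + c2 := by
      funext T
      ext μ
      simp only [c1, c2, Pi.add_apply, post_apply, coeff_add, Finsupp.add_apply, flt_coeff]
      by_cases hμ : μ ∈ s <;> simp [hμ]
    have hc1 : c1 ∈ Coch (fr (FamF k F) S) q := by
      intro T
      refine ⟨⟨flt_mem_SupL _ (h1 T).1.1, flt_mem_SupL _ (h1 T).1.2⟩, fun hT => ?_⟩
      simp [c1, (h1 T).2 hT]
    have hdc1 : cobd k _ c1 = 0 := by
      simp only [c1]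
      rw [cobd_post, h3, map_zero]
    have hb : ∀ μ ∈ S, cof c1 μ ∈ BF k (F μ) q := by
      intro μ hμ
      by_cases hs : μ ∈ s
      · have : cof c1 μ = 0 := by
          funext T
          simp [cof, c1, flt_coeff, hs]
        rw [this]
        exact Submodule.zero_mem _
      · exact h μ hμ hs (cof_mem_ZF hc1 hdc1 μ)
    obtain ⟨a, ha, ha'⟩ := exists_cobd_of_cof hc1 hb
    rw [hc12]
    refine Submodule.add_mem_sup (mem_Bc.2 ⟨a, ha, 0, Submodule.zero_mem _, by rw [ha', add_zero]⟩) ?_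
    refine ⟨fun T μ => (c T).coeff μ.1, ?_⟩
    funext T
    ext μ
    simp only [ι, LinearMap.coe_mk, AddHom.coe_mk, coeff_sum, Finsupp.finsetSum_apply,
      coeff_single, c2, post_apply, flt_coeff, Finsupp.single_apply, Finset.mem_coe]
    rw [Finset.sum_coe_sort s (fun ν => if ν = μ then (c T).coeff ν else 0), Finset.sum_ite_eq']

end Mon

end Pool.Agent.Helper13
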