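import Pool.Agent.Helper13.FExp

/-!
# The lattices `L_m`, `L'_m`, `f L'_m` and their localizations
-/

set_option linter.unusedSectionVars false

namespace Pool.Agent.Helper13

open Finset AddMonoidAlgebra

variable (k : Type*) [Field k]

theorem expMap_apply (M : Fin 18 → ℤ) : expMap M = ![M 0, M 1, M 2, M 3, M 4, M 5,
    M 6 + M 7 + M 8, M 9 + M 10 + M 11, M 6 + M 9, M 7 + M 10, M 8 + M 11,
    M 12 + M 13 + M 14, M 15 + M 16 + M 17, M 12 + M 15, M 13 + M 16, M 14 + M 17] := rfl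

theorem InL_add {m : ℕ} {δ : ℤ} {μ : ExL} {M : Fin 18 → ℤ} (hM : ∀ v, 0 ≤ M v) (h : InL m δ μ) :
    InL m δ (μ + expMap M) := by
  obtain ⟨⟨x0, x1, x2, x3, x4, x5⟩, hl, ⟨y0, y1, y2, y3, y4, y5⟩, ⟨z0, z1, z2, z3, z4, z5⟩⟩ := h
  have h0 := hM 0
  have h1 := hM 1
  have h2 := hM 2
  have h3 := hM 3
  have h4 := hM 4
  have h5 := hM 5
  have h6 := hM 6
  have h7 := hM 7
  have h8 := hM 8
  have h9 := hM 9
  have h10 := hM 10
  have h11 := hM 11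
  have h12 := hM 12
  have h13 := hM 13
  have h14 := hM 14
  have h15 := hM 15
  have h16 := hM 16
  have h17 := hM 17
  rw [expMap_apply]
  refine ⟨⟨?_, ?_, ?_, ?_, ?_, ?_⟩, ?_, ⟨?_, ?_, ?_, ?_, ?_, ?_⟩, ⟨?_, ?_, ?_, ?_, ?_, ?_⟩⟩ <;>
  simp only [Pi.add_apply, Matrix.cons_val] <;> omega

theorem single_mul_coeff {M : Type*} [AddCommGroup M] (a : M) (p : AddMonoidAlgebra k M) (μ : M) :
    (single a 1 * p).coeff μ = p.coeff (μ - a) := by
  rw [coeff_single_mul_eq_mul_coeff (m₂ := μ - a), one_mul]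
  intro m' _
  constructor
  · intro h; rw [← h]; abel
  · intro h; rw [h]; abel

theorem LL_closed (m : ℕ) (δ : ℤ) : Closed (X16 k) (LL k m δ) := by
  intro v p hp μ hμ
  rw [X16, single_mul_coeff] at hμ
  have := InL_add (M := Pi.single v 1) (fun w => by
    by_cases h : w = v
    · subst h; simp
    · simp [Pi.single_eq_of_ne h]) (hp _ hμ)
  rwa [sub_add_cancel] at this

/-- indicator function -/
def ind (T : Finset (Fin 18)) : Fin 18 → ℤ := fun v => if v ∈ T then 1 else 0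

theorem prod_X16 (T : Finset (Fin 18)) (n : ℕ) :
    (∏ v ∈ T, X16 k v) ^ n = single (expMap ((n : ℤ) • ind T)) 1 := by
  have h1 : ∏ v ∈ T, X16 k v = single (expMap (ind T)) 1 := by
    have h2 : ind T = ∑ v ∈ T, Pi.single v 1 := by
      funext w
      simp [ind, Finset.sum_apply, Pi.single_apply]
    rw [h2, map_sum]
    clear h2
    induction T using Finset.induction_on with
    | empty => simp [AddMonoidAlgebra.one_def]
    | insert v T hv ih =>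
      rw [prod_insert hv, sum_insert hv, ih, X16, single_mul_single, mul_one]
  rw [h1, single_pow, one_pow, ← map_nsmul]
  congr 2

theorem isUnit_X16 (v : Fin 18) : IsUnit (X16 k v) := by
  refine IsUnit.of_mul_eq_one (single (-expMap (Pi.single v 1)) 1) ?_
  rw [X16, single_mul_single, mul_one, add_neg_cancel, AddMonoidAlgebra.one_def]

instance : IsDomain (E16 k) := inferInstance

theorem bound_aux {θ x N w : ℤ} (hw : 0 ≤ w) (hN : 0 ≤ N) (hN' : θ - x ≤ N) (h : x < θ → 1 ≤ w) :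
    θ ≤ x + N * w := by
  by_cases hx : x < θ
  · have := h hx
    nlinarith
  · nlinarith [mul_nonneg hN hw]

theorem bound_aux' {θ x N w : ℤ} (h : θ ≤ x + N * w) (hx : x < θ) (hw : 0 ≤ w) : 1 ≤ w := by
  by_contra hcon
  have : w = 0 := by omega
  subst this
  omega

theorem fin2_forall {P : Fin 2 → Prop} : (∀ b, P b) ↔ P 0 ∧ P 1 := by
  constructor
  · intro h; exact ⟨h 0, h 1⟩
  · rintro ⟨h0, h1⟩ b; fin_cases b; exacts [h0, h1]

theorem fin3_forall {P : Fin 3 → Prop} : (∀ b, P b) ↔ P 0 ∧ P 1 ∧ P 2 := by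
  constructor
  · intro h; exact ⟨h 0, h 1, h 2⟩
  · rintro ⟨h0, h1, h2⟩ b; fin_cases b; exacts [h0, h1, h2]

theorem fin6_forall {P : Fin 6 → Prop} : (∀ b, P b) ↔ P 0 ∧ P 1 ∧ P 2 ∧ P 3 ∧ P 4 ∧ P 5 := by
  constructor
  · intro h; exact ⟨h 0, h 1, h 2, h 3, h 4, h 5⟩
  · rintro ⟨h0, h1, h2, h3, h4, h5⟩ b; fin_cases b; exacts [h0, h1, h2, h3, h4, h5]

theorem fin2_exists {P : Fin 2 → Prop} : (∃ b, P b) ↔ P 0 ∨ P 1 := by
  rw [← not_iff_not, not_exists, fin2_forall]; tauto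

theorem fin3_exists {P : Fin 3 → Prop} : (∃ b, P b) ↔ P 0 ∨ P 1 ∨ P 2 := by
  rw [← not_iff_not, not_exists, fin3_forall]; tauto

theorem fin6_exists {P : Fin 6 → Prop} : (∃ b, P b) ↔ P 0 ∨ P 1 ∨ P 2 ∨ P 3 ∨ P 4 ∨ P 5 := by
  rw [← not_iff_not, not_exists, fin6_forall]; tauto

/-- the clauses in terms of indicator functions -/
def Cl (m : ℕ) (δ : ℤ) (μ : ExL) (a : Fin 18 → ℤ) : Prop :=
  ((μ 0 < 0 → 1 ≤ a 0) ∧ (μ 1 < 0 → 1 ≤ a 1) ∧ (μ 2 < 0 → 1 ≤ a 2) ∧ (μ 3 < 0 → 1 ≤ a 3) ∧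
    (μ 4 < 0 → 1 ≤ a 4) ∧ (μ 5 < 0 → 1 ≤ a 5)) ∧
  (μ 0 + μ 1 + μ 2 + μ 3 + μ 4 + μ 5 + δ < 3 * m → 1 ≤ a 0 + a 1 + a 2 + a 3 + a 4 + a 5) ∧
  ((μ 6 < 6 * m → 1 ≤ a 6 + a 7 + a 8) ∧ (μ 7 < 0 → 1 ≤ a 9 + a 10 + a 11)) ∧
  ((μ 8 < m → 1 ≤ a 6 + a 9) ∧ (μ 9 < 2 * m → 1 ≤ a 7 + a 10) ∧ (μ 10 < 0 → 1 ≤ a 8 + a 11)) ∧
  ((μ 11 < 6 * m → 1 ≤ a 12 + a 13 + a 14) ∧ (μ 12 < 0 → 1 ≤ a 15 + a 16 + a 17)) ∧
  ((μ 13 < m → 1 ≤ a 12 + a 15) ∧ (μ 14 < 2 * m → 1 ≤ a 13 + a 16) ∧ (μ 15 < 0 → 1 ≤ a 14 + a 17))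

theorem ind_bounds (T : Finset (Fin 18)) (v : Fin 18) : 0 ≤ ind T v ∧ ind T v ≤ 1 := by
  unfold ind
  split_ifs <;> simp

theorem mem_iff_ind (T : Finset (Fin 18)) (v : Fin 18) : v ∈ T ↔ 1 ≤ ind T v := by
  unfold ind
  split_ifs with h <;> simp [h]

theorem Fxyz_iff (m : ℕ) (δ : ℤ) (μ : ExL) (T : Finset (Fin 18)) :
    Fxyz (negP μ) (lowP m δ μ) (ryP m μ) (cyP m μ) (rzP m μ) (czP m μ) T ↔ Cl m δ μ (ind T) := by
  have e0 : ∀ i : Fin 6, xv i = ⟨i.1, by omega⟩ := fun i => rfl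
  unfold Fxyz
  simp only [fin2_forall, fin3_forall, fin6_forall, fin2_exists, fin3_exists, fin6_exists,
    mem_iff_ind]
  have b := ind_bounds T
  have b0 := b 0
  have b1 := b 1
  have b2 := b 2
  have b3 := b 3
  have b4 := b 4
  have b5 := b 5
  have b6 := b 6
  have b7 := b 7
  have b8 := b 8
  have b9 := b 9
  have b10 := b 10
  have b11 := b 11
  have b12 := b 12
  have b13 := b 13
  have b14 := b 14
  have b15 := b 15
  have b16 := b 16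
  have b17 := b 17
  generalize ind T = a at *
  have x : negP μ 0 = (μ 0 < 0) ∧ negP μ 1 = (μ 1 < 0) ∧ negP μ 2 = (μ 2 < 0) ∧
    negP μ 3 = (μ 3 < 0) ∧ negP μ 4 = (μ 4 < 0) ∧ negP μ 5 = (μ 5 < 0) :=
    ⟨rfl, rfl, rfl, rfl, rfl, rfl⟩
  have y : ryP m μ 0 = (μ 6 < 6 * m) ∧ ryP m μ 1 = (μ 7 < 0) ∧ cyP m μ 0 = (μ 8 < m) ∧
    cyP m μ 1 = (μ 9 < 2 * m) ∧ cyP m μ 2 = (μ 10 < 0) := ⟨rfl, rfl, rfl, rfl, rfl⟩
  have z : rzP m μ 0 = (μ 11 < 6 * m) ∧ rzP m μ 1 = (μ 12 < 0) ∧ czP m μ 0 = (μ 13 < m) ∧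
    czP m μ 1 = (μ 14 < 2 * m) ∧ czP m μ 2 = (μ 15 < 0) := ⟨rfl, rfl, rfl, rfl, rfl⟩
  have vx : xv 0 = 0 ∧ xv 1 = 1 ∧ xv 2 = 2 ∧ xv 3 = 3 ∧ xv 4 = 4 ∧ xv 5 = 5 :=
    ⟨rfl, rfl, rfl, rfl, rfl, rfl⟩
  have vy : yv 0 0 = 6 ∧ yv 0 1 = 7 ∧ yv 0 2 = 8 ∧ yv 1 0 = 9 ∧ yv 1 1 = 10 ∧ yv 1 2 = 11 :=
    ⟨rfl, rfl, rfl, rfl, rfl, rfl⟩
  have vz : zv 0 0 = 12 ∧ zv 0 1 = 13 ∧ zv 0 2 = 14 ∧ zv 1 0 = 15 ∧ zv 1 1 = 16 ∧ zv 1 2 = 17 :=
    ⟨rfl, rfl, rfl, rfl, rfl, rfl⟩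
  obtain ⟨x0, x1, x2, x3, x4, x5⟩ := x
  obtain ⟨y0, y1, y2, y3, y4⟩ := y
  obtain ⟨z0, z1, z2, z3, z4⟩ := z
  obtain ⟨vx0, vx1, vx2, vx3, vx4, vx5⟩ := vx
  obtain ⟨vy0, vy1, vy2, vy3, vy4, vy5⟩ := vy
  obtain ⟨vz0, vz1, vz2, vz3, vz4, vz5⟩ := vz
  rw [x0, x1, x2, x3, x4, x5, y0, y1, y2, y3, y4, z0, z1, z2, z3, z4, vx0, vx1, vx2, vx3, vx4, vx5,
    vy0, vy1, vy2, vy3, vy4, vy5, vz0, vz1, vz2, vz3, vz4, vz5]
  unfold Cl lowP
  constructor
  · rintro ⟨⟨h1, h2⟩, ⟨h3, h4⟩, h5, h6⟩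
    refine ⟨h1, fun h => ?_, ⟨fun h => ?_, fun h => ?_⟩, ⟨fun h => ?_, fun h => ?_, fun h => ?_⟩,
      ⟨fun h => ?_, fun h => ?_⟩, ⟨fun h => ?_, fun h => ?_, fun h => ?_⟩⟩
    · have := h2 h; omega
    · have := h3.1 h; omega
    · have := h3.2 h; omega
    · have := h4.1 h; omega
    · have := h4.2.1 h; omega
    · have := h4.2.2 h; omega
    · have := h5.1 h; omega
    · have := h5.2 h; omega
    · have := h6.1 h; omega
    · have := h6.2.1 h; omega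
    · have := h6.2.2 h; omega
  · rintro ⟨h1, h2, h3, h4, h5, h6⟩
    refine ⟨⟨h1, fun h => ?_⟩, ⟨⟨fun h => ?_, fun h => ?_⟩, ⟨fun h => ?_, fun h => ?_, fun h => ?_⟩⟩,
      ⟨fun h => ?_, fun h => ?_⟩, ⟨fun h => ?_, fun h => ?_, fun h => ?_⟩⟩
    · have := h2 h; omega
    · have := h3.1 h; omega
    · have := h3.2 h; omega
    · have := h4.1 h; omega
    · have := h4.2.1 h; omega
    · have := h4.2.2 h; omega
    · have := h5.1 h; omega
    · have := h5.2 h; omega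
    · have := h6.1 h; omega
    · have := h6.2.1 h; omega
    · have := h6.2.2 h; omega

theorem InL_Cl {m : ℕ} {δ : ℤ} {μ : ExL} {N : ℤ} {T : Finset (Fin 18)}
    (h : InL m δ (μ + expMap (N • ind T))) : Eqn δ μ ∧ Cl m δ μ (ind T) := by
  have b := fun v => (ind_bounds T v).1
  generalize ind T = a at *
  have b0 := b 0
  have b1 := b 1
  have b2 := b 2
  have b3 := b 3
  have b4 := b 4
  have b5 := b 5
  have b6 := b 6
  have b7 := b 7
  have b8 := b 8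
  have b9 := b 9
  have b10 := b 10
  have b11 := b 11
  have b12 := b 12
  have b13 := b 13
  have b14 := b 14
  have b15 := b 15
  have b16 := b 16
  have b17 := b 17
  rw [expMap_apply] at h
  obtain ⟨⟨x0, x1, x2, x3, x4, x5⟩, hl, ⟨y0, y1, y2, y3, y4, y5⟩, ⟨z0, z1, z2, z3, z4, z5⟩⟩ := h
  simp only [Pi.add_apply, Pi.smul_apply, smul_eq_mul, Matrix.cons_val] at x0 x1 x2 x3 x4 x5 hl y0 y1 y2 y3 y4 y5 z0 z1 z2 z3 z4 z5
  refine ⟨⟨by linarith, by linarith⟩, ⟨fun h => ?_, fun h => ?_, fun h => ?_, fun h => ?_,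
    fun h => ?_, fun h => ?_⟩, fun h => ?_, ⟨fun h => ?_, fun h => ?_⟩,
    ⟨fun h => ?_, fun h => ?_, fun h => ?_⟩, ⟨fun h => ?_, fun h => ?_⟩,
    ⟨fun h => ?_, fun h => ?_, fun h => ?_⟩⟩
  · exact bound_aux' x0 h b0
  · exact bound_aux' x1 h b1
  · exact bound_aux' x2 h b2
  · exact bound_aux' x3 h b3
  · exact bound_aux' x4 h b4
  · exact bound_aux' x5 h b5
  · exact bound_aux' (N := N) (by linarith) h (by omega)
  · exact bound_aux' (N := N) (by linarith) h (by omega)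
  · exact bound_aux' (N := N) (by linarith) h (by omega)
  · exact bound_aux' (N := N) (by linarith) h (by omega)
  · exact bound_aux' (N := N) (by linarith) h (by omega)
  · exact bound_aux' (N := N) (by linarith) h (by omega)
  · exact bound_aux' (N := N) (by linarith) h (by omega)
  · exact bound_aux' (N := N) (by linarith) h (by omega)
  · exact bound_aux' (N := N) (by linarith) h (by omega)
  · exact bound_aux' (N := N) (by linarith) h (by omega)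
  · exact bound_aux' (N := N) (by linarith) h (by omega)

theorem Cl_InL {m : ℕ} {δ : ℤ} {μ : ExL} {T : Finset (Fin 18)} (hE : Eqn δ μ)
    (h : Cl m δ μ (ind T)) : ∃ N : ℕ, InL m δ (μ + expMap ((N : ℤ) • ind T)) := by
  have b := fun v => (ind_bounds T v).1
  generalize ind T = a at *
  have b0 := b 0
  have b1 := b 1
  have b2 := b 2
  have b3 := b 3
  have b4 := b 4
  have b5 := b 5
  have b6 := b 6
  have b7 := b 7
  have b8 := b 8
  have b9 := b 9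
  have b10 := b 10
  have b11 := b 11
  have b12 := b 12
  have b13 := b 13
  have b14 := b 14
  have b15 := b 15
  have b16 := b 16
  have b17 := b 17
  obtain ⟨e1, e2⟩ := hE
  obtain ⟨⟨x0, x1, x2, x3, x4, x5⟩, hl, ⟨y0, y1⟩, ⟨y2, y3, y4⟩, ⟨z0, z1⟩, ⟨z2, z3, z4⟩⟩ := h
  obtain ⟨N, hN⟩ : ∃ N : ℕ, ∀ i, 6 * (m : ℤ) - μ i ≤ N ∧
      3 * (m : ℤ) - (μ 0 + μ 1 + μ 2 + μ 3 + μ 4 + μ 5 + δ) ≤ N := by
    refine ⟨(6 * (m : ℤ) + ∑ i, |μ i| + |δ|).toNat, fun i => ?_⟩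
    rw [Int.toNat_of_nonneg (by positivity)]
    have h1 : |μ i| ≤ ∑ i, |μ i| := Finset.single_le_sum (f := fun i => |μ i|)
      (fun i _ => abs_nonneg (μ i)) (Finset.mem_univ i)
    have h2 : |μ 0| + |μ 1| + |μ 2| + |μ 3| + |μ 4| + |μ 5| ≤ ∑ i, |μ i| := by
      simp only [Fin.sum_univ_succ, Fin.succ_zero_eq_one, Fin.succ_one_eq_two, Fin.sum_univ_zero,
        Fin.reduceSucc]
      have := fun i => abs_nonneg (μ i)
      linarith [this 6, this 7, this 8, this 9, this 10, this 11, this 12, this 13, this 14,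
        this 15]
    have h3 := fun i => neg_abs_le (μ i)
    have h4 := neg_abs_le δ
    have h5 := abs_nonneg δ
    constructor
    · linarith [h3 i]
    · have hm : (0 : ℤ) ≤ m := by positivity
      linarith [h3 0, h3 1, h3 2, h3 3, h3 4, h3 5]
  have hN0 : (0 : ℤ) ≤ N := by positivity
  have hm : (0 : ℤ) ≤ m := by positivity
  refine ⟨N, ?_⟩
  rw [expMap_apply]
  refine ⟨⟨?_, ?_, ?_, ?_, ?_, ?_⟩, ?_, ⟨?_, ?_, ?_, ?_, ?_, ?_⟩, ⟨?_, ?_, ?_, ?_, ?_, ?_⟩⟩ <;>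
  simp only [Pi.add_apply, Pi.smul_apply, smul_eq_mul, Matrix.cons_val]
  · exact bound_aux b0 hN0 (by linarith [(hN 0).1]) x0
  · exact bound_aux b1 hN0 (by linarith [(hN 1).1]) x1
  · exact bound_aux b2 hN0 (by linarith [(hN 2).1]) x2
  · exact bound_aux b3 hN0 (by linarith [(hN 3).1]) x3
  · exact bound_aux b4 hN0 (by linarith [(hN 4).1]) x4
  · exact bound_aux b5 hN0 (by linarith [(hN 5).1]) x5
  · have := bound_aux (w := a 0 + a 1 + a 2 + a 3 + a 4 + a 5) (by omega) hN0 (hN 0).2 hl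
    linarith
  · have := bound_aux (w := a 6 + a 7 + a 8) (by omega) hN0 (by linarith [(hN 6).1]) y0
    linarith
  · have := bound_aux (w := a 9 + a 10 + a 11) (by omega) hN0 (by linarith [(hN 7).1]) y1
    linarith
  · linarith
  · have := bound_aux (w := a 6 + a 9) (by omega) hN0 (by linarith [(hN 8).1]) y2
    linarith
  · have := bound_aux (w := a 7 + a 10) (by omega) hN0 (by linarith [(hN 9).1]) y3
    linarith
  · have := bound_aux (w := a 8 + a 11) (by omega) hN0 (by linarith [(hN 10).1]) y4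
    linarith
  · have := bound_aux (w := a 12 + a 13 + a 14) (by omega) hN0 (by linarith [(hN 11).1]) z0
    linarith
  · have := bound_aux (w := a 15 + a 16 + a 17) (by omega) hN0 (by linarith [(hN 12).1]) z1
    linarith
  · linarith
  · have := bound_aux (w := a 12 + a 15) (by omega) hN0 (by linarith [(hN 13).1]) z2
    linarith
  · have := bound_aux (w := a 13 + a 16) (by omega) hN0 (by linarith [(hN 14).1]) z3
    linarith
  · have := bound_aux (w := a 14 + a 17) (by omega) hN0 (by linarith [(hN 15).1]) z4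
    linarith

theorem InL_mono_N {m : ℕ} {δ : ℤ} {μ : ExL} {T : Finset (Fin 18)} {N N' : ℕ} (hNN : N ≤ N')
    (h : InL m δ (μ + expMap ((N : ℤ) • ind T))) : InL m δ (μ + expMap ((N' : ℤ) • ind T)) := by
  have h1 : μ + expMap ((N' : ℤ) • ind T) = (μ + expMap ((N : ℤ) • ind T)) +
      expMap (((N' : ℤ) - N) • ind T) := by
    rw [add_assoc, ← map_add, ← add_smul]
    congr 3
    ring
  rw [h1]
  apply InL_add _ h
  intro v
  have := (ind_bounds T v).1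
  simp only [Pi.smul_apply, smul_eq_mul]
  have h2 : (0 : ℤ) ≤ (N' : ℤ) - N := by
    have : (N : ℤ) ≤ N' := by exact_mod_cast hNN
    linarith
  positivity

theorem loc_LL (m : ℕ) (δ : ℤ) : loc (X16 k) (LL k m δ) = FamF k (FL m δ) := by
  funext T
  ext p
  rw [(LL_closed k m δ).mem_loc]
  have hcoef : ∀ (N : ℕ) (μ : ExL), ((∏ v ∈ T, X16 k v) ^ N * p).coeff μ =
      p.coeff (μ - expMap ((N : ℤ) • ind T)) := by
    intro N μ
    rw [prod_X16, single_mul_coeff]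
  constructor
  · rintro ⟨N, hN⟩ μ hμ
    have h1 := hN (μ + expMap ((N : ℤ) • ind T)) (by
      rw [hcoef, add_sub_cancel_right]; exact hμ)
    obtain ⟨h2, h3⟩ := InL_Cl h1
    exact ⟨h2, (Fxyz_iff m δ μ T).2 h3⟩
  · intro hp
    have h1 : ∀ μ : ExL, ∃ N : ℕ, p.coeff μ ≠ 0 → InL m δ (μ + expMap ((N : ℤ) • ind T)) := by
      intro μ
      by_cases hμ : p.coeff μ = 0
      · exact ⟨0, fun h => absurd hμ h⟩
      · obtain ⟨h2, h3⟩ := hp μ hμ
        obtain ⟨N, hN⟩ := Cl_InL h2 ((Fxyz_iff m δ μ T).1 h3)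
        exact ⟨N, fun _ => hN⟩
    choose N hN using h1
    refine ⟨p.coeff.support.sup N, fun μ hμ => ?_⟩
    rw [hcoef] at hμ
    have h2 := InL_mono_N (N' := p.coeff.support.sup N)
      (Finset.le_sup (f := N) (Finsupp.mem_support_iff.2 hμ)) (hN _ hμ)
    rwa [sub_add_cancel] at h2

theorem tau_pos {m : ℕ} {u j i : ℕ} (hu : u < 3) (hj : j < 3) (hi : i < 3) {ν : ExL}
    (h : InL m 2 (ν - tau u j i)) : InL m 0 ν := by
  obtain ⟨⟨x0, x1, x2, x3, x4, x5⟩, hl, ⟨y0, y1, y2, y3, y4, y5⟩, ⟨z0, z1, z2, z3, z4, z5⟩⟩ := h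
  simp only [Pi.sub_apply, tau, Matrix.cons_val] at x0 x1 x2 x3 x4 x5 hl y0 y1 y2 y3 y4 y5 z0 z1 z2 z3 z4 z5
  refine ⟨⟨?_, ?_, ?_, ?_, ?_, ?_⟩, ?_, ⟨?_, ?_, ?_, ?_, ?_, ?_⟩, ⟨?_, ?_, ?_, ?_, ?_, ?_⟩⟩ <;> omega

theorem fLL_le (m : ℕ) : fLL k m ≤ LL k m 0 := by
  rintro _ ⟨p, hp, rfl⟩ ν hν
  rw [LinearMap.mulLeft_apply, fL_mul_coeff] at hν
  obtain ⟨u, hu, hν⟩ := exists_ne_zero_of_sum_ne_zero hν
  obtain ⟨j, hj, hν⟩ := exists_ne_zero_of_sum_ne_zero hν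
  obtain ⟨i, hi, hν⟩ := exists_ne_zero_of_sum_ne_zero hν
  exact tau_pos (mem_range.1 hu) (mem_range.1 hj) (mem_range.1 hi) (hp _ (right_ne_zero_of_mul hν))

theorem fL_ne_zero : fL k ≠ 0 := by
  intro h
  have h1 := fL_mul_coeff k 1 (tau 0 2 2)
  rw [h, zero_mul] at h1
  simp only [AddMonoidAlgebra.one_def, coeff_single, Finsupp.single_apply, coeff_zero,
    Finsupp.coe_zero, Pi.zero_apply] at h1
  have h2 : ∀ u ∈ range 3, ∀ j ∈ range 3, ∀ i ∈ range 3,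
      (ct k u j i * (if (0 : ExL) = tau 0 2 2 - tau u j i then (1 : k) else 0)) =
      if (u, j, i) = (0, 2, 2) then 1 else 0 := by
    intro u hu j hj i hi
    have hu := mem_range.1 hu
    have hj := mem_range.1 hj
    have hi := mem_range.1 hi
    by_cases h3 : (u, j, i) = (0, 2, 2)
    · simp only [Prod.mk.injEq] at h3
      obtain ⟨rfl, rfl, rfl⟩ := h3
      simp [ct]
    · rw [if_neg h3, if_neg, mul_zero]
      intro h4
      apply h3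
      have h5 := congrFun h4 1
      have h6 := congrFun h4 7
      have h7 := congrFun h4 12
      simp only [tau, Pi.sub_apply, Pi.zero_apply, Matrix.cons_val] at h5 h6 h7
      simp only [Prod.mk.injEq]
      omega
  rw [sum_congr rfl (fun u hu => sum_congr rfl (fun j hj => sum_congr rfl (fun i hi =>
    h2 u hu j hj i hi)))] at h1
  simp [sum_range_succ] at h1

theorem fLL_closed (m : ℕ) : Closed (X16 k) (fLL k m) := by
  rintro v _ ⟨p, hp, rfl⟩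
  refine ⟨X16 k v * p, LL_closed k m 2 v p hp, ?_⟩
  simp only [LinearMap.mulLeft_apply]
  ring

theorem mem_loc_fLL (m : ℕ) (T : Finset (Fin 18)) (p : E16 k) :
    p ∈ loc (X16 k) (fLL k m) T ↔ ∃ q ∈ loc (X16 k) (LL k m 2) T, p = fL k * q := by
  rw [(fLL_closed k m).mem_loc]
  constructor
  · rintro ⟨N, q, hq, hN⟩
    obtain ⟨u, hu⟩ := (isUnit_prodX (isUnit_X16 k) T).pow N
    refine ⟨(↑u⁻¹ : E16 k) * q, (LL_closed k m 2).mem_loc.2 ⟨N, ?_⟩, ?_⟩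
    · rw [← hu, ← mul_assoc, Units.mul_inv, one_mul]
      exact hq
    · rw [LinearMap.mulLeft_apply] at hN
      rw [mul_left_comm, hN, ← hu, ← mul_assoc, Units.inv_mul, one_mul]
  · rintro ⟨q, hq, rfl⟩
    obtain ⟨N, hN⟩ := (LL_closed k m 2).mem_loc.1 hq
    refine ⟨N, _, hN, ?_⟩
    rw [LinearMap.mulLeft_apply]
    ring

theorem blkL_tau (u j i : ℕ) : blkL (tau u j i) = ![2, 0, 0, 0, 0, 0, 0] := by
  ext a
  fin_cases a <;> simp [blkL, tau]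

theorem fL_flt (l : Lam) (p : E16 k) :
    fL k * flt k (SL l) p = flt k (SL (l + ![2,0,0,0,0,0,0])) (fL k * p) := by
  classical
  ext ν
  rw [flt_coeff, fL_mul_coeff, fL_mul_coeff]
  have h1 : ∀ u j i : ℕ, ν - tau u j i ∈ SL l ↔ ν ∈ SL (l + ![2, 0, 0, 0, 0, 0, 0]) := by
    intro u j i
    simp only [SL, Set.mem_preimage, Set.mem_singleton_iff, map_sub, blkL_tau]
    rw [sub_eq_iff_eq_add]
  split_ifs with h
  · refine sum_congr rfl fun u _ => sum_congr rfl fun j _ => sum_congr rfl fun i _ => ?_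
    rw [flt_coeff, if_pos ((h1 u j i).2 h)]
  · refine sum_eq_zero fun u _ => sum_eq_zero fun j _ => sum_eq_zero fun i _ => ?_
    rw [flt_coeff, if_neg (fun h2 => h ((h1 u j i).1 h2)), mul_zero]

theorem hom_loc_fLL (m : ℕ) (l : Lam) : Hom (loc (X16 k) (fLL k m)) (SL l) := by
  intro T p hp
  obtain ⟨q, hq, rfl⟩ := (mem_loc_fLL k m T p).1 hp
  have h := fL_flt k (l - ![2,0,0,0,0,0,0]) q
  rw [sub_add_cancel] at h
  rw [← h]
  refine (mem_loc_fLL k m T _).2 ⟨_, ?_, rfl⟩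
  rw [loc_LL] at hq ⊢
  exact flt_mem_SupL _ hq

end Pool.Agent.Helper13
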