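import Pool.Agent.Helper13.Cech

/-!
# Part A: exact sequences and transfer lemmas for families of subspaces
-/

set_option linter.unusedSectionVars false

namespace Pool.Agent.Helper13

open Finset

section Basic

variable {k : Type*} [Field k] {V : Type*} [LinearOrder V]
variable {E : Type*} [AddCommGroup E] [Module k E]

/-- sign of `v` in `T` -/
def sg (k : Type*) [Field k] (T : Finset V) (v : V) : k := (-1) ^ (T.filter (· < v)).card

theorem cobd_apply' (c : Finset V → E) (T : Finset V) :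
    cobd k E c T = ∑ v ∈ T, sg k T v • c (T.erase v) := cobd_apply c T

theorem sg_erase_of_le {T : Finset V} {v w : V} (h : w ≤ v) : sg k (T.erase v) w = sg k T w := by
  unfold sg
  congr 2
  ext u
  simp only [mem_filter, mem_erase]
  constructor
  · rintro ⟨⟨_, h1⟩, h2⟩; exact ⟨h1, h2⟩
  · rintro ⟨h1, h2⟩; exact ⟨⟨(lt_of_lt_of_le h2 h).ne, h1⟩, h2⟩

theorem sg_erase_of_lt {T : Finset V} {v w : V} (hv : v ∈ T) (h : v < w) :
    sg k (T.erase v) w = - sg k T w := by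
  unfold sg
  have h1 : (T.erase v).filter (· < w) = (T.filter (· < w)).erase v := by
    ext u
    simp only [mem_filter, mem_erase]
    tauto
  have h2 : v ∈ T.filter (· < w) := by simp [hv, h]
  rw [h1]
  have h3 : (T.filter (· < w)).card = ((T.filter (· < w)).erase v).card + 1 := by
    rw [card_erase_of_mem h2]
    have := card_pos.2 ⟨v, h2⟩
    omega
  rw [h3, pow_succ]
  ring

theorem sg_mul_self (T : Finset V) (v : V) : sg k T v * sg k T v = 1 := by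
  unfold sg
  rw [← pow_add, ← two_mul, pow_mul]
  simp

theorem cobd_cobd (c : Finset V → E) : cobd k E (cobd k E c) = 0 := by
  funext T
  rw [cobd_apply']
  simp only [cobd_apply', smul_sum, Pi.zero_apply]
  rw [sum_sigma']
  refine sum_involution (fun x _ => ⟨x.2, x.1⟩) ?_ ?_ ?_ ?_
  · rintro ⟨v, w⟩ h
    simp only [mem_sigma, mem_erase] at h
    obtain ⟨hv, hwv, hw⟩ := h
    simp only
    rw [erase_right_comm, smul_smul, smul_smul, ← add_smul]
    rcases lt_or_gt_of_ne hwv with h | h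
    · rw [sg_erase_of_le h.le, sg_erase_of_lt hw h]
      ring_nf
      simp
    · rw [sg_erase_of_lt hv h, sg_erase_of_le h.le]
      ring_nf
      simp
  · rintro ⟨v, w⟩ h hne
    simp only [mem_sigma, mem_erase] at h
    intro heq
    simp only [Sigma.mk.injEq, heq_eq_eq] at heq
    exact h.2.1 heq.1
  · rintro ⟨v, w⟩ h
    simp only [mem_sigma, mem_erase] at h ⊢
    exact ⟨h.2.2, fun h' => h.2.1 h'.symm, h.1⟩
  · rintro ⟨v, w⟩ h
    rfl

/-- postcomposition with a linear map -/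
noncomputable def post {E' : Type*} [AddCommGroup E'] [Module k E'] (ψ : E →ₗ[k] E') :
    (Finset V → E) →ₗ[k] (Finset V → E') :=
  LinearMap.pi fun T => ψ.comp (LinearMap.proj T)

@[simp] theorem post_apply {E' : Type*} [AddCommGroup E'] [Module k E'] (ψ : E →ₗ[k] E')
    (c : Finset V → E) (T : Finset V) : post ψ c T = ψ (c T) := rfl

theorem cobd_post {E' : Type*} [AddCommGroup E'] [Module k E'] (ψ : E →ₗ[k] E')
    (c : Finset V → E) : cobd k E' (post ψ c) = post ψ (cobd k E c) := by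
  funext T
  simp [cobd_apply', map_sum]

end Basic

section Fam

variable {k : Type*} [Field k] {V : Type*} [LinearOrder V]
variable {E : Type*} [AddCommGroup E] [Module k E]

/-- monotone families -/
def Mono (G : Finset V → Submodule k E) : Prop := ∀ S T, S ⊆ T → G S ≤ G T

variable {G J A B C : Finset V → Submodule k E} {q : ℤ}

theorem mem_Coch {c : Finset V → E} :
    c ∈ Coch G q ↔ ∀ T, c T ∈ G T ∧ ((T.card : ℤ) ≠ q → c T = 0) := Iff.rfl

theorem Coch_mono (h : ∀ T, A T ≤ B T) : Coch A q ≤ Coch B q :=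
  fun _ hc T => ⟨h T (hc T).1, (hc T).2⟩

theorem cobd_mem_Coch (hG : Mono G) {c : Finset V → E} (hc : c ∈ Coch G q) :
    cobd k E c ∈ Coch G (q + 1) := by
  intro T
  rw [cobd_apply']
  constructor
  · exact Submodule.sum_mem _ fun v hv => (G T).smul_mem _ (hG _ _ (erase_subset v T) (hc _).1)
  · intro hT
    refine sum_eq_zero fun v hv => ?_
    rw [(hc (T.erase v)).2, smul_zero]
    rw [card_erase_of_mem hv]
    have := card_pos.2 ⟨v, hv⟩
    intro h'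
    apply hT
    omega

theorem cobd_mem_Coch' (hG : Mono G) {c : Finset V → E} (hc : c ∈ Coch G (q - 1)) :
    cobd k E c ∈ Coch G q := by
  have := cobd_mem_Coch hG hc
  rwa [sub_add_cancel] at this

theorem mem_Zc {c : Finset V → E} : c ∈ Zc G J q ↔ c ∈ Coch G q ∧ cobd k E c ∈ Coch J (q + 1) :=
  Iff.rfl

theorem mem_Bc {c : Finset V → E} : c ∈ Bc G J q ↔
    ∃ a ∈ Coch G (q - 1), ∃ b ∈ Coch J q, cobd k E a + b = c := by
  unfold Bc
  rw [Submodule.mem_sup]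
  constructor
  · rintro ⟨_, ⟨a, ha, rfl⟩, b, hb, h⟩
    exact ⟨a, ha, b, hb, h⟩
  · rintro ⟨a, ha, b, hb, h⟩
    exact ⟨_, ⟨a, ha, rfl⟩, b, hb, h⟩

/-- `B ≤ Z` -/
theorem Bc_le_Zc (hG : Mono G) (hJ : Mono J) (hJG : ∀ T, J T ≤ G T) : Bc G J q ≤ Zc G J q := by
  intro c hc
  obtain ⟨a, ha, b, hb, rfl⟩ := mem_Bc.1 hc
  refine mem_Zc.2 ⟨?_, ?_⟩
  · exact Submodule.add_mem _ (cobd_mem_Coch' hG ha) (Coch_mono hJG hb)
  · rw [map_add, cobd_cobd, zero_add]
    exact cobd_mem_Coch hJ hb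

/-! ### the three exactness statements -/

/-- `H^q(B/A) = 0`, `H^q(C/B) = 0` imply `H^q(C/A) = 0` -/
theorem Van.trans (hAB : ∀ T, A T ≤ B T) (hBC : ∀ T, B T ≤ C T)
    (h1 : Van B A q) (h2 : Van C B q) : Van C A q := by
  intro c hc
  obtain ⟨hc1, hc2⟩ := mem_Zc.1 hc
  obtain ⟨a, ha, b, hb, rfl⟩ := mem_Bc.1 (h2 (mem_Zc.2 ⟨hc1, Coch_mono hAB hc2⟩))
  rw [map_add, cobd_cobd, zero_add] at hc2
  obtain ⟨a', ha', b', hb', rfl⟩ := mem_Bc.1 (h1 (mem_Zc.2 ⟨hb, hc2⟩))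
  refine mem_Bc.2 ⟨a + a', Submodule.add_mem _ ha (Coch_mono hBC ha'), b', hb', ?_⟩
  rw [map_add, add_assoc]

theorem fg_lift {X Y : Type*} [AddCommGroup X] [Module k X] [AddCommGroup Y] [Module k Y]
    (f : X →ₗ[k] Y) (Z B : Submodule k X) (B' W' : Submodule k Y) (hW' : W'.FG)
    (h1 : ∀ z ∈ Z, f z ∈ B' ⊔ W') (h2 : ∀ z ∈ Z, f z ∈ B' → z ∈ B) :
    ∃ W : Submodule k X, W.FG ∧ Z ≤ B ⊔ W := by
  let g : X →ₗ[k] Y ⧸ B' := B'.mkQ.comp f
  have hR : Z.map g ≤ W'.map B'.mkQ := by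
    rintro _ ⟨z, hz, rfl⟩
    obtain ⟨b, hb, w, hw, h⟩ := Submodule.mem_sup.1 (h1 z hz)
    refine ⟨w, hw, ?_⟩
    simp only [g, LinearMap.comp_apply, ← h, map_add]
    rw [(Submodule.Quotient.mk_eq_zero B').2 hb |> fun h => (h : B'.mkQ b = 0), zero_add]
  have hfg : (Z.map g).FG := by
    have h3 : (W'.map B'.mkQ).FG := hW'.map _
    have : Module.Finite k (W'.map B'.mkQ) := Module.Finite.iff_fg.2 h3
    exact Submodule.FG.of_le h3 hR
  obtain ⟨s, hs⟩ := hfg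
  have hmem : ∀ y ∈ s, ∃ z ∈ Z, g z = y := by
    intro y hy
    have : y ∈ Z.map g := by rw [← hs]; exact Submodule.subset_span hy
    obtain ⟨z, hz, h⟩ := this
    exact ⟨z, hz, h⟩
  choose! l hl hl' using hmem
  classical
  refine ⟨Submodule.span k ((s.image l : Finset X) : Set X), ⟨_, rfl⟩, ?_⟩
  intro z hz
  have hgz : g z ∈ Submodule.span k (s : Set (Y ⧸ B')) := by rw [hs]; exact ⟨z, hz, rfl⟩
  have hle : Submodule.span k (s : Set (Y ⧸ B')) ≤
      (Submodule.span k ((s.image l : Finset X) : Set X) ⊓ Z).map g := by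
    rw [Submodule.span_le]
    intro y hy
    refine ⟨l y, ⟨Submodule.subset_span (by simpa using ⟨y, hy, rfl⟩), hl y hy⟩, hl' y hy⟩
  obtain ⟨w, ⟨hw1, hw2⟩, hw⟩ := hle hgz
  rw [Submodule.mem_sup]
  refine ⟨z - w, ?_, w, hw1, by abel⟩
  apply h2 _ (Z.sub_mem hz hw2)
  have : g (z - w) = 0 := by rw [map_sub, hw, sub_self]
  exact (Submodule.Quotient.mk_eq_zero B').1 this

/-- `H^q(B/A)`, `H^q(C/B)` finite imply `H^q(C/A)` finite -/
theorem FinC.trans (hAB : ∀ T, A T ≤ B T) (hBC : ∀ T, B T ≤ C T)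
    (h1 : FinC B A q) (h2 : FinC C B q) : FinC C A q := by
  obtain ⟨W1, hW1, h1⟩ := h1
  obtain ⟨W2, hW2, h2⟩ := h2
  -- map `Z(C,A) → Z(C,B)/B(C,B)`
  have h3 : ∃ W : Submodule k (Finset V → E), W.FG ∧
      Zc C A q ≤ (Zc C A q ⊓ Bc C B q) ⊔ W := by
    refine fg_lift LinearMap.id (Zc C A q) _ (Bc C B q) W2 hW2 ?_ ?_
    · intro z hz
      exact h2 (mem_Zc.2 ⟨(mem_Zc.1 hz).1, Coch_mono hAB (mem_Zc.1 hz).2⟩)
    · intro z hz hz'
      exact ⟨hz, hz'⟩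
  obtain ⟨W, hW, h3⟩ := h3
  refine ⟨W1 ⊔ W, hW1.sup hW, fun c hc => ?_⟩
  obtain ⟨c1, ⟨hc1, hc1'⟩, w, hw, rfl⟩ := Submodule.mem_sup.1 (h3 hc)
  obtain ⟨hc2, hc3⟩ := mem_Zc.1 hc1
  obtain ⟨a, ha, b, hb, rfl⟩ := mem_Bc.1 hc1'
  rw [map_add, cobd_cobd, zero_add] at hc3
  obtain ⟨b1, hb1, w1, hw1, rfl⟩ := Submodule.mem_sup.1 (h1 (mem_Zc.2 ⟨hb, hc3⟩))
  obtain ⟨a', ha', b', hb', rfl⟩ := mem_Bc.1 hb1
  have e : cobd k E a + (cobd k E a' + b' + w1) + w = (cobd k E (a + a') + b') + (w1 + w) := by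
    rw [map_add]; abel
  rw [e]
  refine Submodule.add_mem_sup (mem_Bc.2 ⟨a + a', Submodule.add_mem _ ha (Coch_mono hBC ha'),
    b', hb', rfl⟩) (Submodule.add_mem_sup hw1 hw)

/-- `H^q(C/A) = 0`, `H^{q+1}(B/A) = 0` imply `H^q(C/B) = 0` -/
theorem Van.right (hAB : ∀ T, A T ≤ B T) (hBC : ∀ T, B T ≤ C T)
    (h1 : Van C A q) (h2 : Van B A (q + 1)) : Van C B q := by
  intro c hc
  obtain ⟨hc1, hc2⟩ := mem_Zc.1 hc
  have h3 : cobd k E c ∈ Zc B A (q + 1) := by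
    refine mem_Zc.2 ⟨hc2, ?_⟩
    rw [cobd_cobd]
    exact Submodule.zero_mem _
  obtain ⟨a, ha, b, hb, h4⟩ := mem_Bc.1 (h2 h3)
  rw [add_sub_cancel_right] at ha
  have h5 : c - a ∈ Zc C A q := by
    refine mem_Zc.2 ⟨Submodule.sub_mem _ hc1 (Coch_mono hBC ha), ?_⟩
    rw [map_sub, ← h4, add_sub_cancel_left]
    exact hb
  obtain ⟨a', ha', b', hb', h6⟩ := mem_Bc.1 (h1 h5)
  refine mem_Bc.2 ⟨a', ha', a + b', Submodule.add_mem _ ha (Coch_mono hAB hb'), ?_⟩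
  have : c = a + (cobd k E a' + b') := by rw [h6]; abel
  rw [this]; abel

/-- `H^q(C/A) = 0`, `H^{q+1}(B/A)` finite imply `H^q(C/B)` finite -/
theorem FinC.right (hAB : ∀ T, A T ≤ B T) (hBC : ∀ T, B T ≤ C T)
    (h1 : Van C A q) (h2 : FinC B A (q + 1)) : FinC C B q := by
  obtain ⟨W2, hW2, h2⟩ := h2
  refine fg_lift (cobd k E) (Zc C B q) _ (Bc B A (q + 1)) W2 hW2 ?_ ?_
  · intro c hc
    obtain ⟨hc1, hc2⟩ := mem_Zc.1 hc
    apply h2
    refine mem_Zc.2 ⟨hc2, ?_⟩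
    rw [cobd_cobd]
    exact Submodule.zero_mem _
  · intro c hc h4
    obtain ⟨hc1, hc2⟩ := mem_Zc.1 hc
    obtain ⟨a, ha, b, hb, h4⟩ := mem_Bc.1 h4
    rw [add_sub_cancel_right] at ha
    have h5 : c - a ∈ Zc C A q := by
      refine mem_Zc.2 ⟨Submodule.sub_mem _ hc1 (Coch_mono hBC ha), ?_⟩
      rw [map_sub, ← h4, add_sub_cancel_left]
      exact hb
    obtain ⟨a', ha', b', hb', h6⟩ := mem_Bc.1 (h1 h5)
    refine mem_Bc.2 ⟨a', ha', a + b', Submodule.add_mem _ ha (Coch_mono hAB hb'), ?_⟩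
    have : c = a + (cobd k E a' + b') := by rw [h6]; abel
    rw [this]; abel

/-- `H^q(C/B) = 0`, `H^{q+1}(C/A) = 0` imply `H^{q+1}(B/A) = 0` -/
theorem Van.left (hAB : ∀ T, A T ≤ B T) (hBC : ∀ T, B T ≤ C T)
    (h1 : Van C B q) (h2 : Van C A (q + 1)) : Van B A (q + 1) := by
  intro c hc
  obtain ⟨hc1, hc2⟩ := mem_Zc.1 hc
  obtain ⟨a, ha, b, hb, h4⟩ := mem_Bc.1 (h2 (mem_Zc.2 ⟨Coch_mono hBC hc1, hc2⟩))
  rw [add_sub_cancel_right] at ha
  have h5 : a ∈ Zc C B q := by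
    refine mem_Zc.2 ⟨ha, ?_⟩
    have : cobd k E a = c - b := by rw [← h4]; abel
    rw [this]
    exact Submodule.sub_mem _ hc1 (Coch_mono hAB hb)
  obtain ⟨a', ha', b', hb', h6⟩ := mem_Bc.1 (h1 h5)
  refine mem_Bc.2 ⟨b', by rwa [add_sub_cancel_right], b, hb, ?_⟩
  rw [← h4, ← h6, map_add, cobd_cobd, zero_add]

theorem Van.fin (h : Van G J q) : FinC G J q := ⟨⊥, Submodule.fg_bot, by rw [sup_bot_eq]; exact h⟩

theorem Van.self : Van G G q := by
  intro c hc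
  exact mem_Bc.2 ⟨0, Submodule.zero_mem _, c, hc.1, by simp⟩

/-! ### transfer along a linear map -/

variable {E' : Type*} [AddCommGroup E'] [Module k E'] {G' J' : Finset V → Submodule k E'}

/-- `ψ` induces an isomorphism `G/J → G'/J'` of families -/
structure Tr (ψ : E →ₗ[k] E') (G J : Finset V → Submodule k E)
    (G' J' : Finset V → Submodule k E') : Prop where
  map : ∀ T, ∀ p ∈ G T, ψ p ∈ G' T
  iff : ∀ T, ∀ p ∈ G T, ψ p ∈ J' T ↔ p ∈ J T
  surj : ∀ T, ∀ p' ∈ G' T, ∃ p ∈ G T, p' - ψ p ∈ J' T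

variable {ψ : E →ₗ[k] E'}

theorem Tr.lift (h : Tr ψ G J G' J') {c' : Finset V → E'} (hc' : c' ∈ Coch G' q) :
    ∃ c ∈ Coch G q, c' - post ψ c ∈ Coch J' q := by
  choose! l hl hl' using h.surj
  classical
  refine ⟨fun T => if (T.card : ℤ) = q then l T (c' T) else 0, ?_, ?_⟩
  · intro T
    by_cases hT : (T.card : ℤ) = q
    · simp only [hT, if_true]
      exact ⟨hl T _ (hc' T).1, fun h => absurd rfl h⟩
    · simp [hT]
  · intro T
    by_cases hT : (T.card : ℤ) = q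
    · simp only [Pi.sub_apply, post_apply, hT, if_true]
      exact ⟨hl' T _ (hc' T).1, fun h => absurd rfl h⟩
    · simp [hT, (hc' T).2 hT]

theorem Tr.map_coch (h : Tr ψ G J G' J') {c : Finset V → E} (hc : c ∈ Coch G q) :
    post ψ c ∈ Coch G' q := fun T => ⟨h.map T _ (hc T).1, fun h' => by simp [(hc T).2 h']⟩

theorem Tr.map_coch' (h : Tr ψ G J G' J') (hJG : ∀ T, J T ≤ G T) {c : Finset V → E}
    (hc : c ∈ Coch J q) : post ψ c ∈ Coch J' q :=
  fun T => ⟨(h.iff T _ (hJG T (hc T).1)).2 (hc T).1, fun h' => by simp [(hc T).2 h']⟩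

theorem Tr.coch_iff (h : Tr ψ G J G' J') {c : Finset V → E} (hc : c ∈ Coch G q)
    (hc' : post ψ c ∈ Coch J' q) : c ∈ Coch J q :=
  fun T => ⟨(h.iff T _ (hc T).1).1 (hc' T).1, (hc T).2⟩

/-- lifting a relative cocycle -/
theorem Tr.lift_Z (h : Tr ψ G J G' J') (hG : Mono G) (hJ' : Mono J')
    {c' : Finset V → E'} (hc' : c' ∈ Zc G' J' q) :
    ∃ c ∈ Zc G J q, c' - post ψ c ∈ Coch J' q := by
  obtain ⟨h1, h2⟩ := mem_Zc.1 hc'
  obtain ⟨c, hc, hcc⟩ := h.lift h1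
  refine ⟨c, mem_Zc.2 ⟨hc, ?_⟩, hcc⟩
  apply h.coch_iff (cobd_mem_Coch hG hc)
  rw [← cobd_post]
  have : cobd k E' (post ψ c) = cobd k E' c' - cobd k E' (c' - post ψ c) := by
    rw [map_sub]; abel
  rw [this]
  exact Submodule.sub_mem _ h2 (cobd_mem_Coch hJ' hcc)

theorem Tr.map_Z (h : Tr ψ G J G' J') (hJG : ∀ T, J T ≤ G T) {c : Finset V → E}
    (hc : c ∈ Zc G J q) : post ψ c ∈ Zc G' J' q := by
  obtain ⟨h1, h2⟩ := mem_Zc.1 hc
  refine mem_Zc.2 ⟨h.map_coch h1, ?_⟩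
  rw [cobd_post]
  exact h.map_coch' hJG h2

theorem Tr.map_B (h : Tr ψ G J G' J') (hJG : ∀ T, J T ≤ G T) {c : Finset V → E}
    (hc : c ∈ Bc G J q) : post ψ c ∈ Bc G' J' q := by
  obtain ⟨a, ha, b, hb, rfl⟩ := mem_Bc.1 hc
  refine mem_Bc.2 ⟨post ψ a, h.map_coch ha, post ψ b, h.map_coch' hJG hb, ?_⟩
  rw [map_add, cobd_post]

theorem Tr.of_map_B (h : Tr ψ G J G' J') (hG : Mono G) (hJ' : Mono J')
    {c : Finset V → E} (hc : c ∈ Coch G q) (hc' : post ψ c ∈ Bc G' J' q) : c ∈ Bc G J q := by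
  obtain ⟨a', ha', b', hb', h1⟩ := mem_Bc.1 hc'
  obtain ⟨a, ha, haa⟩ := h.lift ha'
  refine mem_Bc.2 ⟨a, ha, c - cobd k E a, ?_, by abel⟩
  apply h.coch_iff (Submodule.sub_mem _ hc (cobd_mem_Coch' hG ha))
  have : post ψ (c - cobd k E a) = cobd k E' (a' - post ψ a) + b' := by
    rw [map_sub, ← cobd_post, ← h1, map_sub]; abel
  rw [this]
  exact Submodule.add_mem _ (cobd_mem_Coch' hJ' haa) hb'

theorem Tr.van_iff (h : Tr ψ G J G' J') (hG : Mono G) (hJG : ∀ T, J T ≤ G T) (hJ' : Mono J') :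
    Van G J q ↔ Van G' J' q := by
  constructor
  · intro hv c' hc'
    obtain ⟨c, hc, hcc⟩ := h.lift_Z hG hJ' hc'
    have h1 := h.map_B hJG (hv hc)
    have h2 : c' = post ψ c + (c' - post ψ c) := by abel
    rw [h2]
    refine Submodule.add_mem _ h1 (mem_Bc.2 ⟨0, Submodule.zero_mem _, _, hcc, by simp⟩)
  · intro hv c hc
    exact h.of_map_B hG hJ' hc.1 (hv (h.map_Z hJG hc))

theorem Tr.fin (h : Tr ψ G J G' J') (hG : Mono G) (hJG : ∀ T, J T ≤ G T) (hJ' : Mono J')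
    (hf : FinC G J q) : FinC G' J' q := by
  obtain ⟨W, hW, hf⟩ := hf
  refine ⟨W.map (post ψ), hW.map _, fun c' hc' => ?_⟩
  obtain ⟨c, hc, hcc⟩ := h.lift_Z hG hJ' hc'
  obtain ⟨b, hb, w, hw, hbw⟩ := Submodule.mem_sup.1 (hf hc)
  have h1 := h.map_B hJG hb
  have h2 : c' = (post ψ b + (c' - post ψ c)) + post ψ w := by
    rw [← hbw, map_add]; abel
  rw [h2]
  exact Submodule.add_mem_sup (Submodule.add_mem _ h1
    (mem_Bc.2 ⟨0, Submodule.zero_mem _, _, hcc, by simp⟩)) ⟨w, hw, rfl⟩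

theorem Tr.fin' (h : Tr ψ G J G' J') (hG : Mono G) (hJG : ∀ T, J T ≤ G T) (hJ' : Mono J')
    (hf : FinC G' J' q) : FinC G J q := by
  obtain ⟨W, hW, hf⟩ := hf
  exact fg_lift (post ψ) (Zc G J q) (Bc G J q) (Bc G' J' q) W hW
    (fun z hz => hf (h.map_Z hJG hz)) (fun z hz hz' => h.of_map_B hG hJ' hz.1 hz')

end Fam

/-! ### localization families -/

section Loc

variable {k : Type*} [Field k] {V : Type*} [LinearOrder V]
variable {A : Type*} [CommRing A] [Algebra k A] {A' : Type*} [CommRing A'] [Algebra k A']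
variable {X : V → A} {X' : V → A'} {G J G1 : Submodule k A} {G' J' : Submodule k A'}

/-- closed under multiplication by the `X v` -/
def Closed (X : V → A) (G : Submodule k A) : Prop := ∀ v, ∀ p ∈ G, X v * p ∈ G

theorem Closed.prod (h : Closed X G) (T : Finset V) {p : A} (hp : p ∈ G) :
    (∏ v ∈ T, X v) * p ∈ G := by
  classical
  induction T using Finset.induction_on with
  | empty => simpa using hp
  | insert v T hv ih => rw [prod_insert hv, mul_assoc]; exact h v _ ih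

theorem Closed.pow (h : Closed X G) (T : Finset V) (n : ℕ) {p : A} (hp : p ∈ G) :
    (∏ v ∈ T, X v) ^ n * p ∈ G := by
  induction n with
  | zero => simpa using hp
  | succ n ih => rw [pow_succ', mul_assoc]; exact h.prod T ih

theorem Closed.mem_loc (h : Closed X G) {T : Finset V} {p : A} :
    p ∈ loc X G T ↔ ∃ N : ℕ, (∏ v ∈ T, X v) ^ N * p ∈ G := by
  constructor
  · rintro ⟨N, hN⟩; exact ⟨N, hN N le_rfl⟩
  · rintro ⟨N, hN⟩
    refine ⟨N, fun n hn => ?_⟩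
    obtain ⟨m, rfl⟩ := Nat.exists_eq_add_of_le hn
    rw [pow_add, mul_comm (_ ^ N), mul_assoc]
    exact h.pow T m hN

theorem Closed.mono (h : Closed X G) : Mono (loc X G) := by
  intro S T hST p hp
  obtain ⟨N, hN⟩ := h.mem_loc.1 hp
  refine h.mem_loc.2 ⟨N, ?_⟩
  rw [← prod_sdiff hST, mul_pow, mul_assoc]
  exact h.pow _ _ hN

theorem loc_mono (h : G ≤ G1) (T : Finset V) : loc X G T ≤ loc X G1 T := by
  rintro p ⟨N, hN⟩
  exact ⟨N, fun n hn => h (hN n hn)⟩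

theorem isUnit_prodX (hX : ∀ v, IsUnit (X v)) (T : Finset V) : IsUnit (∏ v ∈ T, X v) := by
  classical
  induction T using Finset.induction_on with
  | empty => simp
  | insert v T hv ih => rw [prod_insert hv]; exact (hX v).mul ih

/-- transfer for localization families -/
theorem Tr.loc {ψ : A →ₗ[k] A'} (hψ : ∀ v p, ψ (X v * p) = X' v * ψ p) (hX : ∀ v, IsUnit (X v))
    (hG : Closed X G) (hJ : Closed X J) (hG' : Closed X' G') (hJ' : Closed X' J')
    (h1 : ∀ p ∈ G, ψ p ∈ G') (h2 : ∀ p ∈ G, ψ p ∈ J' ↔ p ∈ J)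
    (h3 : ∀ p' ∈ G', ∃ p ∈ G, p' - ψ p ∈ J') :
    Tr ψ (loc X G) (loc X J) (loc X' G') (loc X' J') := by
  have hprod : ∀ (T : Finset V) (n : ℕ) (p : A),
      ψ ((∏ v ∈ T, X v) ^ n * p) = (∏ v ∈ T, X' v) ^ n * ψ p := by
    intro T n p
    have h0 : ∀ p, ψ ((∏ v ∈ T, X v) * p) = (∏ v ∈ T, X' v) * ψ p := by
      classical
      induction T using Finset.induction_on with
      | empty => simp
      | insert v T hv ih =>
        intro p; rw [prod_insert hv, prod_insert hv, mul_assoc, hψ, ih, mul_assoc]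
    induction n with
    | zero => simp
    | succ n ih => rw [pow_succ', mul_assoc, h0, ih, pow_succ', mul_assoc]
  refine ⟨?_, ?_, ?_⟩
  · intro T p hp
    obtain ⟨N, hN⟩ := hG.mem_loc.1 hp
    exact hG'.mem_loc.2 ⟨N, by rw [← hprod]; exact h1 _ hN⟩
  · intro T p hp
    obtain ⟨N, hN⟩ := hG.mem_loc.1 hp
    constructor
    · intro hp'
      obtain ⟨M, hM⟩ := hJ'.mem_loc.1 hp'
      refine hJ.mem_loc.2 ⟨M + N, ?_⟩
      rw [← h2 _ (by rw [pow_add, mul_assoc]; exact hG.pow _ _ hN), hprod, pow_add,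
        mul_comm (_ ^ M), mul_assoc]
      exact hJ'.pow _ _ hM
    · intro hp'
      obtain ⟨M, hM⟩ := hJ.mem_loc.1 hp'
      refine hJ'.mem_loc.2 ⟨M + N, ?_⟩
      rw [← hprod, h2 _ (by rw [pow_add, mul_assoc]; exact hG.pow _ _ hN), pow_add,
        mul_comm (_ ^ M), mul_assoc]
      exact hJ.pow _ _ hM
  · intro T p' hp'
    obtain ⟨N, hN⟩ := hG'.mem_loc.1 hp'
    obtain ⟨p0, hp0, h4⟩ := h3 _ hN
    have hu : IsUnit ((∏ v ∈ T, X v) ^ N) := (isUnit_prodX hX T).pow N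
    obtain ⟨u, hu⟩ := hu
    have h5 : (∏ v ∈ T, X v) ^ N * ((↑u⁻¹ : A) * p0) = p0 := by
      rw [← hu, ← mul_assoc, Units.mul_inv, one_mul]
    refine ⟨(↑u⁻¹ : A) * p0, hG.mem_loc.2 ⟨N, by rw [h5]; exact hp0⟩, hJ'.mem_loc.2 ⟨N, ?_⟩⟩
    rw [mul_sub, ← hprod, h5]
    exact h4

end Loc

end Pool.Agent.Helper13
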