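import Pool.Agent.Helper13.PartF1

/-!
# Part F2: finiteness in every block degree, vanishing in high x-degree
-/

set_option linter.unusedSectionVars false

namespace Pool.Agent.Helper13

open Finset AddMonoidAlgebra

variable (k : Type*) [Field k]

/-- the zero family -/
def botF {V E : Type*} [AddCommGroup E] [Module k E] : Finset V → Submodule k E := fun _ => ⊥

/-- degree of `f` -/
def ef : Lam := ![2, 0, 0, 0, 0, 0, 0]

theorem LF_eq (m : ℕ) (δ : ℤ) : LF k m δ = FamF k (FL m δ) := loc_LL k m δ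

theorem hom_FamF {V M : Type*} (F : M → Finset V → Prop) (S : Set M) : Hom (FamF k F) S :=
  fun _ _ hp => flt_mem_SupL S hp

theorem hom_LF (m : ℕ) (δ : ℤ) (S : Set ExL) : Hom (LF k m δ) S := by
  rw [LF_eq]; exact hom_FamF k _ _

theorem mono_LF (m : ℕ) (δ : ℤ) : Mono (LF k m δ) := (LL_closed k m δ).mono
theorem mono_JF (m : ℕ) : Mono (JF k m) := (fLL_closed k m).mono
theorem JF_le_LF (m : ℕ) (T : Finset (Fin 18)) : JF k m T ≤ LF k m 0 T := loc_mono (fLL_le k m) T
theorem mono_botF {V E : Type*} [AddCommGroup E] [Module k E] :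
    Mono (botF k : Finset V → Submodule k E) := fun _ _ _ => le_rfl
theorem hom_botF {V M : Type*} (S : Set M) :
    Hom (botF k : Finset V → Submodule k (AddMonoidAlgebra k M)) S := by
  intro T p hp
  have : p = 0 := hp
  rw [this, map_zero]
  exact Submodule.zero_mem _
theorem fr_botF {V M : Type*} (S : Set M) :
    fr (botF k : Finset V → Submodule k (AddMonoidAlgebra k M)) S = botF k := by
  funext T
  simp [fr, botF]

/-- multiplication by `f` -/
theorem tr_f (m : ℕ) : Tr (LinearMap.mulLeft k (fL k)) (LF k m 2) (botF k) (JF k m) (botF k) := by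
  refine ⟨?_, ?_, ?_⟩
  · intro T p hp
    exact (mem_loc_fLL k m T _).2 ⟨p, hp, rfl⟩
  · intro T p hp
    simp only [botF, Submodule.mem_bot, LinearMap.mulLeft_apply, mul_eq_zero, fL_ne_zero, false_or]
  · intro T p' hp'
    obtain ⟨q, hq, rfl⟩ := (mem_loc_fLL k m T _).1 hp'
    exact ⟨q, hq, by simp [botF]⟩

theorem tr_f_fr (m : ℕ) (l : Lam) : Tr (LinearMap.mulLeft k (fL k)) (fr (LF k m 2) (SL l)) (botF k)
    (fr (JF k m) (SL (l + ef))) (botF k) := by
  have := (tr_f k m).fr (S := SL l) (S' := SL (l + ef)) (fun p => fL_flt k l p) (hom_LF k m 2 _)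
    (hom_botF k _)
  rwa [fr_botF, fr_botF] at this

theorem botF_le {V E : Type*} [AddCommGroup E] [Module k E] (G : Finset V → Submodule k E) :
    ∀ T, (botF k : Finset V → Submodule k E) T ≤ G T := fun _ => bot_le

theorem van_LF8 (m : ℕ) (δ : ℤ) (hδ : 0 ≤ δ) (S : Set ExL) : Van (fr (LF k m δ) S) (botF k) 8 := by
  rw [LF_eq]
  exact van_of_fine (fun μ _ => fine8 k hδ μ)

theorem SL_iff {l : Lam} {μ : ExL} : μ ∈ SL l ↔ (μ 0 + μ 1 + μ 2 + μ 3 + μ 4 + μ 5 = l 0 ∧ μ 8 = l 1 ∧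
    μ 9 = l 2 ∧ μ 10 = l 3 ∧ μ 13 = l 4 ∧ μ 14 = l 5 ∧ μ 15 = l 6) := by
  simp only [SL, Set.mem_preimage, Set.mem_singleton_iff, blkL, AddMonoidHom.coe_mk, ZeroHom.coe_mk]
  constructor
  · intro h
    rw [← h]
    exact ⟨rfl, rfl, rfl, rfl, rfl, rfl, rfl⟩
  · rintro ⟨h0, h1, h2, h3, h4, h5, h6⟩
    ext i
    fin_cases i
    exacts [h0, h1, h2, h3, h4, h5, h6]

theorem fin_LF9 (m : ℕ) (l : Lam) : FinC (fr (LF k m 2) (SL l)) (botF k) 9 := by
  rw [LF_eq]
  let B : ℤ := 6 * m + |l 0| + |l 1| + |l 2| + |l 3| + |l 4| + |l 5| + |l 6| + 10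
  refine fin_of_fine (Finset.Icc (fun _ => -B) (fun _ => B)) ?_
  intro μ hμ hs
  by_cases h1 : Reg m 2 μ
  · by_cases h2 : Eqn 2 μ
    · exfalso
      apply hs
      rw [SL_iff] at hμ
      obtain ⟨hx, hl, hy, hz⟩ := h1
      obtain ⟨e1, e2⟩ := h2
      have a0 := abs_le.1 (le_refl |l 0|)
      have a1 := abs_le.1 (le_refl |l 1|)
      have a2 := abs_le.1 (le_refl |l 2|)
      have a3 := abs_le.1 (le_refl |l 3|)
      have a4 := abs_le.1 (le_refl |l 4|)
      have a5 := abs_le.1 (le_refl |l 5|)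
      have a6 := abs_le.1 (le_refl |l 6|)
      rw [Finset.mem_Icc, Pi.le_def, Pi.le_def]
      simp only [B]
      refine ⟨fun i => ?_, fun i => ?_⟩
      · fin_cases i <;> simp only [Fin.zero_eta, Fin.mk_one, Fin.reduceFinMk] <;> omega
      · fin_cases i <;> simp only [Fin.zero_eta, Fin.mk_one, Fin.reduceFinMk] <;> omega
    · exact ZF_eq_bot_of_not_eqn k h2 _
  · exact fine9 k (by norm_num) μ h1

theorem fin_piece (m : ℕ) (l : Lam) : FinC (fr (LF k m 0) (SL l)) (fr (JF k m) (SL l)) 8 := by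
  refine FinC.right (A := botF k) (botF_le k _) (fr_le_fr (JF_le_LF k m) _) (van_LF8 k m 0 le_rfl _) ?_
  have h := tr_f_fr k m (l - ef)
  rw [sub_add_cancel] at h
  have := h.fin (q := 9) (fr_mono (mono_LF k m 2) _) (botF_le k _) (mono_botF k) (fin_LF9 k m (l - ef))
  norm_num
  exact this

/-- vanishing in degree 9 for high x-degree -/
theorem van_high (m : ℕ) (l : Lam) (hl : 3 * m ≤ l 0) (hl' : 2 ≤ l 0) :
    Van (fr (LF k m 0) (SL l)) (fr (JF k m) (SL l)) 9 := by
  refine Van.right (A := botF k) (botF_le k _) (fr_le_fr (JF_le_LF k m) _) ?_ ?_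
  · rw [LF_eq]
    refine van_of_fine fun μ hμ => ?_
    rw [SL_iff] at hμ
    exact_mod_cast fine_high k 9 μ (by omega) (by omega)
  · have h := tr_f_fr k m (l - ef)
    rw [sub_add_cancel] at h
    refine (h.van_iff (q := 9 + 1) (fr_mono (mono_LF k m 2) _) (botF_le k _) (mono_botF k)).1 ?_
    rw [LF_eq]
    refine van_of_fine fun μ hμ => ?_
    rw [SL_iff] at hμ
    have h0 : (l - ef) 0 = l 0 - 2 := rfl
    rw [h0] at hμ
    exact_mod_cast fine_high k 10 μ (by omega) (by omega)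

end Pool.Agent.Helper13
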